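import Mathlib
import Pool.Agent.Y298.CD.PsiCD
import Pool.Agent.Y298.CD.Pass

/-!
# Slow curves of parameters: definitions
-/

set_option autoImplicit false

open Set Filter Metric MeasureTheory

namespace Pool.Agent.Y298.CA

open Pool.Agent.TH279.MD Pool.Agent.Y298.SH Pool.Agent.Y298.SH.CD
open Pool.Agent.Y298.SH.CE (MG RR)
open Pool.Agent.W746.LD (Univ KC exists_KC)

/-- The iterates along a curve of parameters: the `n`-th iterate of `w` under the polynomial with the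
parameter `γ w`. -/
def GG (d : ℕ) (γ : ℂ → ℂ) (n : ℕ) (w : ℂ) : ℂ := (f d (γ w))^[n] w

/-- Slow curves: holomorphic families of parameters near `c₁` over the ball `ball u T`. -/
structure Cv (c₁ : ℂ) (r κ : ℝ) (u : ℂ) (T : ℝ) (γ : ℂ → ℂ) : Prop where
  hol : DifferentiableOn ℂ γ (ball u T)
  near : ∀ w ∈ ball u T, ‖γ w - c₁‖ ≤ r
  slow : ∀ w ∈ ball u T, ‖deriv γ w‖ ≤ κ

/-- The points whose orbit (for the parameter of the curve) stays in the closed ball of radius `2`. -/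
def BB (d : ℕ) (γ : ℂ → ℂ) : Set ℂ := {w | ∀ n, ‖GG d γ n w‖ ≤ 2}

/-- The supremum of the areas over the slow curves. -/
noncomputable def SS (d : ℕ) (c₁ : ℂ) (r κ : ℝ) : ENNReal :=
  ⨆ (u : ℂ) (T : ℝ) (γ : ℂ → ℂ) (_ : 0 < T ∧ T ≤ 1 ∧ Cv c₁ r κ u T γ),
    volume (BB d γ ∩ ball u (T / 2))

/-- The points whose first `n` iterates stay away from the critical point. -/
def VV (d : ℕ) (δ : ℝ) (c : ℂ) (n : ℕ) : Set ℂ := {y | ∀ j < n, 2 * δ ≤ ‖(f d c)^[j] y‖}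

/-- The derivative of the `n`-th iterate of the frozen polynomial at `w`. -/
noncomputable def DD (d : ℕ) (γ : ℂ → ℂ) (n : ℕ) (w : ℂ) : ℂ := deriv ((f d (γ w))^[n]) w

/-- The passage property near the critical value, with constants. -/
structure PC (d : ℕ) (C₁ lam θ B Ca : ℝ) : Prop where
  Ca1 : 1 ≤ Ca
  CaB : Ca ≤ B
  pass : ∀ c₁ : ℂ, CEp d C₁ lam c₁ → ∀ (c : ℂ) (s : ℝ) (k : ℕ), 0 < s → ‖c - c₁‖ ≤ s →
    (∀ j < k, B * θ ^ j * s * Pd d c₁ j ≤ ‖zz d c₁ j‖) → ∀ x ∈ ball c s, ∀ j ≤ k,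
      ‖(f d c)^[j] x - zz d c₁ j‖ ≤ Ca * s * Pd d c₁ j ∧
      Pd d c₁ j / 2 ≤ ‖deriv ((f d c)^[j]) x‖ ∧
      ‖deriv ((f d c)^[j]) x‖ ≤ 2 * Pd d c₁ j ∧
      (j < k → ‖(f d c)^[j] x - zz d c₁ j‖ ≤ 1 / 4 * ‖zz d c₁ j‖)

end Pool.Agent.Y298.CA
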