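import Mathlib
import Pool.Agent.Y298.CA.Base

/-!
# Slow curves of parameters: the statements
-/

set_option autoImplicit false

open Set Filter Metric MeasureTheory

namespace Pool.Agent.Y298.CA

open Pool.Agent.TH279.MD Pool.Agent.Y298.SH Pool.Agent.Y298.SH.CD
open Pool.Agent.Y298.SH.CE (MG RR)
open Pool.Agent.W746.LD (Univ KC exists_KC)

/-- Covering lemma (Vitali). -/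
def S_COV : Prop := ∀ (E U : Set ℂ) (b : ℂ → ENNReal) (ρ : ℂ → ℝ) (R : ℝ), MeasurableSet U →
  (∀ w ∈ E, 0 < ρ w ∧ ρ w ≤ R ∧ closedBall w (ρ w) ⊆ U ∧
    volume (E ∩ closedBall w (5 * ρ w)) ≤ ∫⁻ z in closedBall w (ρ w), b z) →
  volume E ≤ ∫⁻ z in U, b z

/-- Distortion of the iterates along a slow curve. -/
def S_PUSH : Prop := ∀ (d : ℕ) (γ : ℂ → ℂ) (w : ℂ) (ρ κ : ℝ) (m n : ℕ) (a b : ℕ → ℝ), 2 ≤ d →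
  0 < ρ → DifferentiableOn ℂ γ (ball w ρ) → (∀ w' ∈ ball w ρ, ‖deriv γ w'‖ ≤ κ) → m ≤ n →
  (∀ w' ∈ ball w ρ, ‖deriv (GG d γ m) w' - DD d γ m w‖ ≤ 1 / 16 * ‖DD d γ m w‖) →
  (∀ j, 0 ≤ a j) → (∀ j, 0 ≤ b j) →
  (∀ j, m ≤ j → j < n → ‖DD d γ j w‖ * ρ ≤ a j * ‖GG d γ j w‖) →
  (∀ j, m ≤ j → j < n → κ ≤ b j * ‖DD d γ (j + 1) w‖) →
  ∑ j ∈ Finset.Ico m n, (4 * d * a j + b j) ≤ 1 / 8 →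
  ∀ w' ∈ ball w ρ, ‖deriv (GG d γ n) w' - DD d γ n w‖ ≤ 1 / 4 * ‖DD d γ n w‖

/-- Transfer of the area by a map with small distortion. -/
def S_TR : Prop := ∀ (d : ℕ) (c₁ : ℂ) (r κ κ₀ : ℝ) (γ : ℂ → ℂ) (w : ℂ) (ρ : ℝ) (n : ℕ) (D : ℂ),
  2 ≤ d → 0 < ρ → DifferentiableOn ℂ γ (ball w ρ) → (∀ w' ∈ ball w ρ, ‖γ w' - c₁‖ ≤ r) →
  (∀ w' ∈ ball w ρ, ‖deriv γ w'‖ ≤ κ₀) → κ₀ ≤ 3 / 4 * (κ * ‖D‖) → D ≠ 0 → ‖D‖ * ρ ≤ 5 →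
  (∀ w' ∈ ball w ρ, ‖deriv (GG d γ n) w' - D‖ ≤ 1 / 4 * ‖D‖) →
  volume (BB d γ ∩ closedBall w (ρ / 16)) ≤ ENNReal.ofReal (2 / ‖D‖ ^ 2) * SS d c₁ r κ

/-- Change of variables for the points which stay away from the critical point. -/
def S_ME : Prop := ∀ (d : ℕ) (δ : ℝ) (c : ℂ) (n : ℕ) (β : ℂ → ENNReal), 2 ≤ d → 0 < δ →
  Measurable β → ∫⁻ y in VV d δ c n, β ((f d c)^[n] y) ≤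
    ∫⁻ z, β z * ENNReal.ofReal (psi d δ c n z)

/-- One preimage. -/
def S_ONE : Prop := ∀ (d : ℕ) (δ : ℝ) (c : ℂ) (n : ℕ) (y : ℂ), 2 ≤ d → 0 < δ → y ∈ VV d δ c n →
  1 ≤ psi d δ c n ((f d c)^[n] y) * ‖deriv ((f d c)^[n]) y‖ ^ 2

/-- Univalent inverse branches: distortion and size of the intermediate images. -/
def S_BR : Prop := ∀ C0 c0 : ℝ, KC C0 c0 → ∃ K₁ : ℝ, 1 ≤ K₁ ∧ ∀ θ τ A : ℝ, MG C0 c0 θ τ A →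
  ∀ (d : ℕ) (c y : ℂ) (R δ : ℝ) (n : ℕ), 2 ≤ d → 0 < R → 0 < δ → (∀ j, 0 < Pd d c j) →
  (∀ j, zz d c j ∈ ball ((f d c)^[n] y) (2 * R) → A * θ ^ j / Pd d c j * (2 * R) ≤ δ ^ d) →
  (∀ j < n, δ < ‖(f d c)^[j] y‖) →
  0 < ‖deriv ((f d c)^[n]) y‖ ∧
  ∀ y' : ℂ, K₁ * (‖deriv ((f d c)^[n]) y‖ * ‖y' - y‖) ≤ R →
    ‖deriv ((f d c)^[n]) y' - deriv ((f d c)^[n]) y‖ ≤ 1 / 32 * ‖deriv ((f d c)^[n]) y‖ ∧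
    ∀ j ≤ n, ‖(f d c)^[j] y' - (f d c)^[j] y‖ * ‖deriv ((f d c)^[n - j]) ((f d c)^[j] y)‖ ≤
      K₁ * (‖deriv ((f d c)^[n]) y‖ * ‖y' - y‖)

/-- Perturbation of finitely many iterates. -/
def S_PE : Prop := ∀ (d N : ℕ), 2 ≤ d → ∃ C : ℝ, 0 < C ∧ ∀ (c₁ : ℂ) (r κ : ℝ) (u : ℂ) (T : ℝ)
  (γ : ℂ → ℂ), ‖c₁‖ ≤ 2 → 0 ≤ r → r ≤ 1 → Cv c₁ r κ u T γ → ∀ n ≤ N, ∀ w ∈ ball u T, ‖w‖ ≤ 4 →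
    ‖GG d γ n w - (f d c₁)^[n] w‖ ≤ C * r ∧
    ‖deriv (GG d γ n) w - deriv ((f d c₁)^[n]) w‖ ≤ C * (r + κ) ∧
    ‖DD d γ n w - deriv ((f d c₁)^[n]) w‖ ≤ C * r

/-- Radial integrals. -/
def S_RA : Prop := ∀ a : ℝ, 0 < a → a < 2 → ∃ C : ℝ, 0 < C ∧ ∀ R : ℝ, 0 ≤ R →
  ∫⁻ z in ball (0 : ℂ) R, ENNReal.ofReal (‖z‖ ^ (a - 2)) ≤ ENNReal.ofReal (C * R ^ a)

/-- Radial integrals, second kind. -/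
def S_RB : Prop := ∀ d : ℕ, 2 ≤ d → ∃ C : ℝ, 0 < C ∧ ∀ x : ℝ, 0 ≤ x →
  ∫⁻ z : ℂ, ENNReal.ofReal (min 1 ((x / ‖z‖) ^ (2 * d))) ≤ ENNReal.ofReal (C * x ^ 2)

/-- The passage near the critical value. -/
def S_PA : Prop := ∀ (d : ℕ) (C₁ lam θ : ℝ), 2 ≤ d → 1 ≤ C₁ → 1 < lam → 1 < θ →
  ∃ B Ca : ℝ, PC d C₁ lam θ B Ca

/-- The passage near the critical point along a slow curve. -/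
def S_BI : Prop := ∀ (d : ℕ) (C₁ lam θ B Ca : ℝ), 2 ≤ d → 1 ≤ C₁ → 1 < lam → 1 < θ →
  PC d C₁ lam θ B Ca → ∃ ε : ℝ, 0 < ε ∧ ε ≤ 1 ∧ ∀ c₁ : ℂ, CEp d C₁ lam c₁ →
  ∀ (s ρ κ : ℝ) (k n : ℕ) (γ : ℂ → ℂ) (w : ℂ), 0 < s → s ≤ 1 → 0 < ρ →
  (∀ j < k, B * θ ^ j * s * Pd d c₁ j ≤ ‖zz d c₁ j‖) →
  DifferentiableOn ℂ γ (ball w ρ) → (∀ w' ∈ ball w ρ, ‖deriv γ w'‖ ≤ κ) → ‖γ w - c₁‖ ≤ s →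
  ‖GG d γ n w‖ ^ d < s → GG d γ n w ≠ 0 → DD d γ n w ≠ 0 →
  (∀ w' ∈ ball w ρ, ‖deriv (GG d γ n) w' - DD d γ n w‖ ≤ 1 / 16 * ‖DD d γ n w‖) →
  ‖DD d γ n w‖ * ρ ≤ ε * ‖GG d γ n w‖ →
  κ ≤ ε * (‖GG d γ n w‖ ^ (d - 1) * ‖DD d γ n w‖) →
  (∀ w' ∈ ball w ρ, ‖deriv (GG d γ (n + 1 + k)) w' - DD d γ (n + 1 + k) w‖ ≤
    1 / 4 * ‖DD d γ (n + 1 + k) w‖) ∧
  ‖DD d γ n w‖ * (‖GG d γ n w‖ ^ (d - 1) * Pd d c₁ k) ≤ ‖DD d γ (n + 1 + k) w‖ ∧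
  ‖DD d γ (n + 1 + k) w‖ * ρ ≤ 5

/-- No hits, uniformly in the class. -/
def S_NH : Prop := ∀ (d : ℕ) (C₁ lam C0 c0 : ℝ), 2 ≤ d → 1 ≤ C₁ → 1 < lam → KC C0 c0 →
  ∃ θ τ A R₀ Y : ℝ, MG C0 c0 θ τ A ∧ 0 < R₀ ∧ 0 < Y ∧ ∀ c : ℂ, CEp d C₁ lam c →
    (∀ δ : ℝ, 0 < δ → δ ≤ R₀ → ∀ y : ℂ, ‖y‖ ≤ 3 * δ → ∀ j, zz d c j ∈ ball y δ →
      A * θ ^ j / Pd d c j * δ ≤ δ ^ d) ∧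
    ∀ j, A * θ ^ j / Pd d c j ≤ Y

/-- Bounds for the truncated iterates for all parameters near a Collet-Eckmann parameter. -/
def S_PS : Prop := ∀ (d : ℕ) (C₁ lam : ℝ) (c₀ : ℂ), CEp d C₁ lam c₀ →
  ∃ ρ₀ Γ : ℝ, 0 < ρ₀ ∧ 1 ≤ Γ ∧ ∀ δ : ℝ, 0 < δ → δ ≤ ρ₀ → ∃ A' : ℝ, 1 ≤ A' ∧ ∀ ε : ℝ, 0 < ε →
    ∃ N : ℕ, 1 ≤ N ∧ ∃ e : ℝ, 0 < e ∧ ∀ c₁ : ℂ, ‖c₁ - c₀‖ ≤ e →
      (∀ y : ℂ, ‖y‖ ≤ 3 * δ → ∑ j ∈ Finset.range (N + 1), psi d δ c₁ j y ≤ Γ) ∧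
      (∀ w : ℂ, ‖w‖ ≤ 4 → psi d δ c₁ N w ≤ ε) ∧
      (∀ n ≤ N, ∀ w : ℂ, ‖w‖ ≤ 4 → psi d δ c₁ n w ≤ A')

end Pool.Agent.Y298.CA
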