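import Mathlib
import Pool.Agent.Y298.CA.Mea

/-!
# Slow curves: the area of the points which come close to the critical point
-/

set_option autoImplicit false

open Set Filter Metric MeasureTheory

namespace Pool.Agent.Y298.CA

open Pool.Agent.TH279.MD Pool.Agent.Y298.SH Pool.Agent.Y298.SH.CD
open Pool.Agent.Y298.SH.CE (MG RR)
open Pool.Agent.W746.LD (Univ KC exists_KC)

variable {d : ℕ} {c₁ : ℂ} {θ B ε K₁ δ Γ A' CN Rd : ℝ} {N : ℕ}

theorem int_ind (d : ℕ) (δ : ℝ) (c : ℂ) (n : ℕ) {W : Set ℂ} (hW : MeasurableSet W) :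
    ∫⁻ y in VV d δ c n, W.indicator 1 ((f d c)^[n] y) =
      volume (VV d δ c n ∩ (f d c)^[n] ⁻¹' W) := by
  have h3 : ∀ y, W.indicator (1 : ℂ → ENNReal) ((f d c)^[n] y) =
      ((f d c)^[n] ⁻¹' W).indicator 1 y := fun y => rfl
  have hm : MeasurableSet ((f d c)^[n] ⁻¹' W) :=
    (differentiable_fn d c n).continuous.measurable hW
  simp only [h3]
  rw [lintegral_indicator_one hm, Measure.restrict_apply hm, inter_comm]

/-- **The points with an entrance very close to the critical point.** -/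
theorem Ctx.volV (X : Ctx d θ B ε K₁ δ Γ A' CN Rd N c₁) (hme : S_ME)
    {r κ : ℝ} {u : ℂ} {T : ℝ} {γ : ℂ → ℂ}
    (hr0 : 0 ≤ r) (hr1 : r ≤ 1) (hT : 0 < T) (hT1 : T ≤ 1) (hCv : Cv c₁ r κ u T γ)
    (hr2 : CN * r ≤ δ / 8) {X₀ : ℝ} (hX0 : 0 < X₀) (hr3 : CN * r ≤ X₀) :
    volume {w | ∃ n < N, EN d δ γ u T n w ∧ ‖GG d γ n w‖ < X₀} ≤
      ENNReal.ofReal (16 * Γ * X₀ ^ 2) := by
  have hδ := X.δ0
  have hΓ1 := X.Γ1
  set Wc : Set ℂ := closedBall (0 : ℂ) (2 * X₀) ∩ closedBall (0 : ℂ) (3 * δ) with hWc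
  have hWm : MeasurableSet Wc := measurableSet_closedBall.inter measurableSet_closedBall
  have h1 : {w | ∃ n < N, EN d δ γ u T n w ∧ ‖GG d γ n w‖ < X₀} ⊆
      ⋃ n ∈ Finset.range N, (VV d δ c₁ n ∩ (f d c₁)^[n] ⁻¹' Wc) := by
    rintro w ⟨n, hn, ⟨hw1, hw2, hw3⟩, hw4⟩
    have hwT : w ∈ ball u T := ball_subset_ball (by linarith) hw1.2
    have hw4' := disk4 hT hT1 hw1 w hwT
    have haway := X.away hr0 hr1 hCv hwT hw4' hn.le hw2 hr2
    have hpe := (X.pe r κ u T γ hr0 hr1 hCv n hn.le w hwT hw4').1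
    have hend : ‖(f d c₁)^[n] w‖ ≤ ‖GG d γ n w‖ + CN * r := by
      calc ‖(f d c₁)^[n] w‖ = ‖GG d γ n w - (GG d γ n w - (f d c₁)^[n] w)‖ := by congr 1; ring
        _ ≤ ‖GG d γ n w‖ + ‖GG d γ n w - (f d c₁)^[n] w‖ := norm_sub_le _ _
        _ ≤ _ := by gcongr
    rw [mem_iUnion₂]
    refine ⟨n, Finset.mem_range.mpr hn, ?_, ?_, ?_⟩
    · intro j hj
      have := haway j hj
      linarith
    · rw [mem_closedBall_zero_iff]
      linarith
    · rw [mem_closedBall_zero_iff]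
      linarith
  have h2 := X.sum_meas hme (β := Wc.indicator 1) (measurable_one.indicator hWm) (by
    intro z hz
    rw [indicator_of_notMem]
    exact fun h => hz h.2)
  calc volume {w | ∃ n < N, EN d δ γ u T n w ∧ ‖GG d γ n w‖ < X₀}
      ≤ volume (⋃ n ∈ Finset.range N, (VV d δ c₁ n ∩ (f d c₁)^[n] ⁻¹' Wc)) := measure_mono h1
    _ ≤ ∑ n ∈ Finset.range N, volume (VV d δ c₁ n ∩ (f d c₁)^[n] ⁻¹' Wc) :=
        measure_biUnion_finset_le _ _
    _ = ∑ n ∈ Finset.range N, ∫⁻ y in VV d δ c₁ n, Wc.indicator 1 ((f d c₁)^[n] y) := by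
        refine Finset.sum_congr rfl fun n _ => ?_
        rw [int_ind d δ c₁ n hWm]
    _ ≤ ENNReal.ofReal Γ * ∫⁻ z, Wc.indicator 1 z := h2
    _ = ENNReal.ofReal Γ * volume Wc := by rw [lintegral_indicator_one hWm]
    _ ≤ ENNReal.ofReal Γ * volume (closedBall (0 : ℂ) (2 * X₀)) := by
        gcongr
        exact inter_subset_left
    _ ≤ _ := by
        rw [vol_cb' _ (by positivity), ← ENNReal.ofReal_mul (by positivity)]
        apply ENNReal.ofReal_le_ofReal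
        calc Γ * (Real.pi * (2 * X₀) ^ 2) ≤ Γ * (4 * (2 * X₀) ^ 2) := by
              gcongr
              exact Real.pi_le_four
          _ = _ := by ring

/-- the density near the critical point -/
noncomputable def bet (d : ℕ) (δ β₁ a Xr : ℝ) : ℂ → ENNReal :=
  (closedBall (0 : ℂ) (3 * δ)).indicator fun v => ({0} : Set ℂ).indicator (fun _ => ⊤) v +
    (ENNReal.ofReal β₁ * ENNReal.ofReal (‖v‖ ^ (a - 2)) +
      25 * ENNReal.ofReal (min 1 ((Xr / ‖v‖) ^ (2 * d))))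

theorem measurable_bet (d : ℕ) (δ β₁ a Xr : ℝ) : Measurable (bet d δ β₁ a Xr) := by
  unfold bet
  refine Measurable.indicator ?_ measurableSet_closedBall
  have h1 : Measurable (({0} : Set ℂ).indicator fun _ : ℂ => (⊤ : ENNReal)) :=
    measurable_const.indicator (measurableSet_singleton _)
  have hm1 : Measurable fun v : ℂ => ENNReal.ofReal (‖v‖ ^ (a - 2)) :=
    ENNReal.measurable_ofReal.comp (by fun_prop)
  have hm2 : Measurable fun v : ℂ => ENNReal.ofReal (min 1 ((Xr / ‖v‖) ^ (2 * d))) :=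
    ENNReal.measurable_ofReal.comp (by fun_prop)
  exact h1.add ((hm1.const_mul _).add (hm2.const_mul _))

theorem bet_int {d : ℕ} {δ β₁ a Xr CA CB : ℝ} (hδ : 0 < δ) (hβ : 0 ≤ β₁) (hX : 0 ≤ Xr)
    (hA : ∀ R : ℝ, 0 ≤ R →
      ∫⁻ z in ball (0 : ℂ) R, ENNReal.ofReal (‖z‖ ^ (a - 2)) ≤ ENNReal.ofReal (CA * R ^ a))
    (hB : ∀ x : ℝ, 0 ≤ x →
      ∫⁻ z : ℂ, ENNReal.ofReal (min 1 ((x / ‖z‖) ^ (2 * d))) ≤ ENNReal.ofReal (CB * x ^ 2))
    (hCA : 0 ≤ CA) (hCB : 0 ≤ CB) :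
    ∫⁻ z, bet d δ β₁ a Xr z ≤
      ENNReal.ofReal (β₁ * (CA * (4 * δ) ^ a) + 25 * (CB * Xr ^ 2)) := by
  have h1 : ∀ v, bet d δ β₁ a Xr v ≤ ({0} : Set ℂ).indicator (fun _ => ⊤) v +
      (ENNReal.ofReal β₁ * (ball (0 : ℂ) (4 * δ)).indicator
        (fun v => ENNReal.ofReal (‖v‖ ^ (a - 2))) v +
      25 * ENNReal.ofReal (min 1 ((Xr / ‖v‖) ^ (2 * d)))) := by
    intro v
    unfold bet
    by_cases hv : v ∈ closedBall (0 : ℂ) (3 * δ)
    · rw [indicator_of_mem hv]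
      have hv' : v ∈ ball (0 : ℂ) (4 * δ) := closedBall_subset_ball (by linarith) hv
      rw [indicator_of_mem hv']
    · rw [indicator_of_notMem hv]
      exact bot_le
  have hm1 : Measurable fun v : ℂ => ENNReal.ofReal (‖v‖ ^ (a - 2)) :=
    ENNReal.measurable_ofReal.comp (by fun_prop)
  have hm2 : Measurable fun v : ℂ => ENNReal.ofReal (min 1 ((Xr / ‖v‖) ^ (2 * d))) :=
    ENNReal.measurable_ofReal.comp (by fun_prop)
  calc ∫⁻ z, bet d δ β₁ a Xr z
      ≤ ∫⁻ v, (({0} : Set ℂ).indicator (fun _ => ⊤) v +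
      (ENNReal.ofReal β₁ * (ball (0 : ℂ) (4 * δ)).indicator
        (fun v => ENNReal.ofReal (‖v‖ ^ (a - 2))) v +
      25 * ENNReal.ofReal (min 1 ((Xr / ‖v‖) ^ (2 * d))))) := lintegral_mono h1
    _ = 0 + (ENNReal.ofReal β₁ * (∫⁻ v in ball (0 : ℂ) (4 * δ), ENNReal.ofReal (‖v‖ ^ (a - 2))) +
        25 * ∫⁻ v : ℂ, ENNReal.ofReal (min 1 ((Xr / ‖v‖) ^ (2 * d)))) := by
        have h2 : Measurable fun v : ℂ => ENNReal.ofReal β₁ * (ball (0 : ℂ) (4 * δ)).indicator
            (fun v => ENNReal.ofReal (‖v‖ ^ (a - 2))) v :=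
          (hm1.indicator measurableSet_ball).const_mul _
        rw [lintegral_add_left (measurable_const.indicator (measurableSet_singleton _)),
          lintegral_indicator_const (measurableSet_singleton _),
          lintegral_add_left h2,
          lintegral_const_mul _ (hm1.indicator measurableSet_ball),
          lintegral_indicator measurableSet_ball, lintegral_const_mul _ hm2]
        congr 1
        rw [measure_singleton, mul_zero]
    _ ≤ ENNReal.ofReal β₁ * ENNReal.ofReal (CA * (4 * δ) ^ a) + 25 *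
        ENNReal.ofReal (CB * Xr ^ 2) := by
        rw [zero_add]
        gcongr
        · exact hA _ (by positivity)
        · exact hB _ hX
    _ = _ := by
        have h25 : (25 : ENNReal) = ENNReal.ofReal 25 := by
          rw [ENNReal.ofReal_ofNat]
        rw [h25, ← ENNReal.ofReal_mul hβ, ← ENNReal.ofReal_mul (by norm_num),
          ← ENNReal.ofReal_add (by positivity) (by positivity)]

theorem bet_low1 {d : ℕ} {δ β₁ a Xr x : ℝ} (hβ : 0 ≤ β₁) (ha0 : 0 < a) (ha1 : a ≤ 1) {v : ℂ}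
    (hx : 0 < x) (hv1 : ‖v‖ ≤ 2 * x) (hv2 : ‖v‖ ≤ 3 * δ) :
    ENNReal.ofReal (β₁ / 4 * x ^ (a - 2)) ≤ bet d δ β₁ a Xr v := by
  unfold bet
  rw [indicator_of_mem (by rwa [mem_closedBall_zero_iff])]
  by_cases h0 : v = 0
  · rw [h0, indicator_of_mem (mem_singleton _), top_add]
    exact le_top
  · have hv0 : 0 < ‖v‖ := norm_pos_iff.mpr h0
    rw [indicator_of_notMem (by simpa using h0), zero_add, ← ENNReal.ofReal_mul hβ]
    refine le_trans ?_ le_self_add
    apply ENNReal.ofReal_le_ofReal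
    have h1 : (2 * x) ^ (a - 2) ≤ ‖v‖ ^ (a - 2) :=
      Real.rpow_le_rpow_of_nonpos hv0 hv1 (by linarith)
    have h2 : 1 / 4 * x ^ (a - 2) ≤ (2 * x) ^ (a - 2) := by
      rw [Real.mul_rpow (by norm_num) hx.le]
      gcongr
      calc (1 / 4 : ℝ) = 2 ^ (-2 : ℝ) := by
            rw [Real.rpow_neg (by norm_num), Real.rpow_two]
            norm_num
        _ ≤ 2 ^ (a - 2) := Real.rpow_le_rpow_of_exponent_le (by norm_num) (by linarith)
    calc β₁ / 4 * x ^ (a - 2) = β₁ * (1 / 4 * x ^ (a - 2)) := by ring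
      _ ≤ β₁ * ‖v‖ ^ (a - 2) := by
          gcongr
          exact h2.trans h1

theorem bet_low2 {d : ℕ} {δ β₁ a Xr x q : ℝ} {v : ℂ} (hx : 0 < x) (hX : 0 ≤ Xr)
    (hq : q * (4 ^ d * x ^ (2 * d)) ≤ Xr ^ (2 * d)) (hv1 : ‖v‖ ≤ 2 * x)
    (hv2 : ‖v‖ ≤ 3 * δ) :
    ENNReal.ofReal (min 25 q) ≤ bet d δ β₁ a Xr v := by
  unfold bet
  rw [indicator_of_mem (by rwa [mem_closedBall_zero_iff])]
  by_cases h0 : v = 0
  · rw [h0, indicator_of_mem (mem_singleton _), top_add]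
    exact le_top
  · have hv0 : 0 < ‖v‖ := norm_pos_iff.mpr h0
    rw [indicator_of_notMem (by simpa using h0), zero_add]
    refine le_trans ?_ le_add_self
    have h25 : (25 : ENNReal) = ENNReal.ofReal 25 := by
      rw [ENNReal.ofReal_ofNat]
    rw [h25, ← ENNReal.ofReal_mul (by norm_num)]
    apply ENNReal.ofReal_le_ofReal
    have h1 : (Xr / (2 * x)) ^ (2 * d) ≤ (Xr / ‖v‖) ^ (2 * d) := by gcongr
    have h2 : q ≤ (Xr / (2 * x)) ^ (2 * d) := by
      rw [div_pow, le_div_iff₀ (by positivity)]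
      calc q * (2 * x) ^ (2 * d) = q * (4 ^ d * x ^ (2 * d)) := by
            rw [mul_pow, pow_mul (2 : ℝ) 2 d]
            norm_num
        _ ≤ _ := hq
    rcases le_total 1 ((Xr / ‖v‖) ^ (2 * d)) with h3 | h3
    · rw [min_eq_left h3, mul_one]
      exact min_le_left _ _
    · rw [min_eq_right h3]
      refine (min_le_right _ _).trans ?_
      have h4 : 0 ≤ (Xr / ‖v‖) ^ (2 * d) := by positivity
      linarith

theorem min_add_le {b q Q : ℝ} (hb : 0 ≤ b) (hQ : Q ≤ b + q) :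
    min 25 Q ≤ b + min 25 q := by
  rcases le_total 25 q with h | h
  · rw [min_eq_left h]
    have := min_le_left (25 : ℝ) Q
    linarith
  · rw [min_eq_right h]
    exact (min_le_right _ _).trans hQ

end Pool.Agent.Y298.CA
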