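import Mathlib
import Pool.Agent.Y298.CA.Sup
import Pool.Agent.Y298.CD.Ver

/-!
# Passage times: quantitative facts
-/

set_option autoImplicit false

open Set Filter Metric MeasureTheory

namespace Pool.Agent.Y298.CA

open Pool.Agent.TH279.MD Pool.Agent.Y298.SH Pool.Agent.Y298.SH.CD

variable {d : ℕ}

/-- the facts on the first passage times -/
structure FT (d : ℕ) (C₁ lam θ B e Cs W : ℝ) : Prop where
  e0 : 0 < e
  e1 : d * e ≤ 1
  Cs0 : 0 < Cs
  W1 : 1 ≤ W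
  shallow : ∀ c₁ : ℂ, CEp d C₁ lam c₁ → ∀ x : ℝ, 0 < x → 2 * x ^ d ≤ 1 →
    ∃ k : ℕ, (∀ j < k, B * θ ^ j * (2 * x ^ d) * Pd d c₁ j ≤ ‖zz d c₁ j‖) ∧
      1 ≤ Cs * x ^ (d * e) * (x ^ (d - 1) * Pd d c₁ k) ^ 2
  base : ∀ c₁ : ℂ, CEp d C₁ lam c₁ → ∀ s : ℝ, 0 < s → s ≤ 1 →
    ∃ k : ℕ, (∀ j < k, B * θ ^ j * s * Pd d c₁ j ≤ ‖zz d c₁ j‖) ∧
      ‖zz d c₁ k‖ < B * θ ^ k * s * Pd d c₁ k ∧ lam ^ k * s ≤ 2 * C₁ * lam ∧
      s * Pd d c₁ k ≤ 4 * d ∧ 1 ≤ W * s ^ e * Pd d c₁ k ∧ 1 ≤ W * NN d ^ k * s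

theorem ft_exists (hd : 2 ≤ d) (C₁ lam θ B : ℝ) (hC₁ : 1 ≤ C₁) (hlam : 1 < lam) (hθ : 1 < θ)
    (hθ2 : θ ≤ 2) (hθd : θ ^ (3 * d) ≤ lam) (hB : 1 ≤ B) :
    ∃ e Cs W : ℝ, FT d C₁ lam θ B e Cs W := by
  have hdR : (2 : ℝ) ≤ d := by exact_mod_cast hd
  have hd0 : (0 : ℝ) < d := by linarith
  have hB0 : 0 < B := by linarith
  have hC₁0 : 0 < C₁ := by linarith
  have hθ0 : 0 < θ := by linarith
  have hlam0 : 0 < lam := by linarith
  set N : ℝ := NN d with hNdef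
  have hN2 : (2 : ℝ) ^ d ≤ N := by
    rw [hNdef]
    unfold NN
    have h1 : (1 : ℝ) ≤ 2 ^ (d - 1) := one_le_pow₀ (by norm_num)
    have h2 : (2 : ℝ) ^ d ≤ (2 * d) ^ d := by
      gcongr
      linarith
    have h3 : (0 : ℝ) < (2 * d) ^ d := by positivity
    nlinarith
  have hN1 : 1 < N := lt_of_lt_of_le (one_lt_pow₀ (by norm_num) (by omega)) hN2
  have hN0 : 0 < N := by linarith
  set e : ℝ := Real.log θ / Real.log N with he
  have hlogN : 0 < Real.log N := Real.log_pos hN1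
  have hlogθ : 0 < Real.log θ := Real.log_pos hθ
  have he0 : 0 < e := by positivity
  have he1 : d * e ≤ 1 := by
    have : e ≤ (d : ℝ)⁻¹ := by
      rw [he, div_le_iff₀ hlogN, inv_mul_eq_div, le_div_iff₀ hd0, mul_comm, ← Real.log_pow]
      apply Real.log_le_log (by positivity)
      exact (pow_le_pow_left₀ hθ0.le hθ2 d).trans hN2
    calc d * e ≤ d * (d : ℝ)⁻¹ := by gcongr
      _ = 1 := mul_inv_cancel₀ hd0.ne'
  have he1' : e ≤ 1 := by nlinarith
  have heθ : N ^ e = θ := by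
    rw [Real.rpow_def_of_pos hN0, he, mul_div_cancel₀ _ hlogN.ne', Real.exp_log hθ0]
  set W : ℝ := C₁ * d * B ^ (d - 1) with hW
  have hBp : 1 ≤ B ^ (d - 1) := one_le_pow₀ hB
  have hW1 : 1 ≤ W := by
    rw [hW]
    exact one_le_mul_of_one_le_of_one_le (one_le_mul_of_one_le_of_one_le hC₁ (by linarith)) hBp
  have hW0 : 0 < W := by linarith
  -- the common facts
  have key : ∀ c₁ : ℂ, CEp d C₁ lam c₁ → ∀ s : ℝ, 0 < s → s ≤ 1 →
    ∃ k : ℕ, (∀ j < k, B * θ ^ j * s * Pd d c₁ j ≤ ‖zz d c₁ j‖) ∧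
      ‖zz d c₁ k‖ < B * θ ^ k * s * Pd d c₁ k ∧ lam ^ k * s ≤ 2 * C₁ * lam ∧
      1 ≤ W * N ^ k * s ∧ (θ ^ k) ^ (2 * d) ≤ W * (s ^ (d - 1) * Pd d c₁ k ^ d) ∧
      1 ≤ (W * s) ^ e * θ ^ k := by
    intro c₁ h s hs0 hs1
    obtain ⟨n, hn1, hn2, hn3, hn4, hn5⟩ := h.first hB hθ.le hθ2 hs0 hs1
    rw [← hW] at hn3 hn4
    rw [← hNdef] at hn4
    refine ⟨n, hn1, hn2, hn5, hn4, ?_, ?_⟩
    · set x := θ ^ n with hx
      have hx1 : 1 ≤ x := one_le_pow₀ hθ.le
      have hx0 : 0 < x := by linarith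
      have hlx : x ^ (3 * d) ≤ lam ^ n := by
        rw [hx, ← pow_mul, mul_comm n (3 * d), pow_mul]
        gcongr
      have hlx' : x ^ (3 * d) ≤ lam ^ (n + 1) := hlx.trans (pow_le_pow_right₀ hlam.le (by omega))
      set Z : ℝ := s ^ (d - 1) * Pd d c₁ n ^ d with hZ
      have h1 : x ^ (2 * d + 1) * x ^ (d - 1) ≤ W * Z * x ^ (d - 1) := by
        calc x ^ (2 * d + 1) * x ^ (d - 1) = x ^ (3 * d) := by
              rw [← pow_add]
              congr 1
              omega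
          _ ≤ lam ^ (n + 1) := hlx'
          _ ≤ W * x ^ (d - 1) * Z := hn3
          _ = _ := by ring
      exact (pow_le_pow_right₀ hx1 (by omega)).trans (le_of_mul_le_mul_right h1 (by positivity))
    · have h5 : (N ^ n) ^ e = θ ^ n := by
        rw [← Real.rpow_natCast, ← Real.rpow_mul hN0.le, mul_comm,
          Real.rpow_mul hN0.le, heθ, Real.rpow_natCast]
      have h6 : 1 ≤ (W * N ^ n * s) ^ e := Real.one_le_rpow hn4 he0.le
      have h7 : (W * N ^ n * s) ^ e = (W * s) ^ e * θ ^ n := by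
        rw [show W * N ^ n * s = (W * s) * N ^ n by ring, Real.mul_rpow (by positivity)
          (by positivity), h5]
      rwa [h7] at h6
  refine ⟨e, 8 * W ^ 3, W ^ 2, ⟨he0, he1, by positivity, one_le_pow₀ hW1, ?_, ?_⟩⟩
  · intro c₁ h x hx0 hx1
    obtain ⟨k, hk1, hk2, hk3, hk4, hk5, hk6⟩ := key c₁ h (2 * x ^ d) (by positivity) hx1
    refine ⟨k, hk1, ?_⟩
    have hP := h.Pd_pos k
    set P := Pd d c₁ k with hPdef
    set y := x ^ (d - 1) * P with hy
    have hy0 : 0 < y := by positivity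
    set q := θ ^ k with hq
    have hq1 : 1 ≤ q := one_le_pow₀ hθ.le
    have h1 : (2 * x ^ d) ^ (d - 1) * P ^ d = 2 ^ (d - 1) * y ^ d := by
      rw [mul_pow, hy, mul_pow (x ^ (d - 1)) P d, ← pow_mul, ← pow_mul, mul_comm d (d - 1)]
      ring
    rw [h1] at hk5
    have h2 : (q ^ 2) ^ d ≤ (2 * W * y) ^ d := by
      calc (q ^ 2) ^ d = q ^ (2 * d) := by rw [← pow_mul]
        _ ≤ W * (2 ^ (d - 1) * y ^ d) := hk5
        _ ≤ W ^ d * (2 ^ d * y ^ d) := by
            have e1 : W ≤ W ^ d := le_self_pow₀ hW1 (by omega)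
            have e2 : (2 : ℝ) ^ (d - 1) ≤ 2 ^ d := pow_le_pow_right₀ (by norm_num) (by omega)
            gcongr
        _ = _ := by rw [mul_pow, mul_pow]; ring
    have h3 : q ^ 2 ≤ 2 * W * y := le_of_pow_le_pow_left₀ (by omega) (by positivity) h2
    have h4 : q ≤ 4 * W ^ 2 * y ^ 2 := by
      have h5 : q ≤ (q ^ 2) ^ 2 := by
        calc q = q ^ 1 := (pow_one q).symm
          _ ≤ q ^ 4 := pow_le_pow_right₀ hq1 (by norm_num)
          _ = _ := by ring
      calc q ≤ (q ^ 2) ^ 2 := h5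
        _ ≤ (2 * W * y) ^ 2 := by gcongr
        _ = _ := by ring
    have h5 : (W * (2 * x ^ d)) ^ e ≤ 2 * W * x ^ (d * e) := by
      have h6 : (W * (2 * x ^ d)) ^ e = (2 * W) ^ e * x ^ (d * e) := by
        rw [show W * (2 * x ^ d) = (2 * W) * x ^ d by ring, Real.mul_rpow (by positivity)
          (by positivity), ← Real.rpow_natCast x d, ← Real.rpow_mul hx0.le]
      rw [h6]
      gcongr
      calc (2 * W) ^ e ≤ (2 * W) ^ (1 : ℝ) :=
            Real.rpow_le_rpow_of_exponent_le (by linarith) he1'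
        _ = 2 * W := Real.rpow_one _
    have hxe : 0 < x ^ (d * e) := Real.rpow_pos_of_pos hx0 _
    calc 1 ≤ (W * (2 * x ^ d)) ^ e * q := hk6
      _ ≤ (2 * W * x ^ (d * e)) * (4 * W ^ 2 * y ^ 2) := by gcongr
      _ = _ := by ring
  · intro c₁ h s hs0 hs1
    obtain ⟨k, hk1, hk2, hk3, hk4, hk5, hk6⟩ := key c₁ h s hs0 hs1
    have hP := h.Pd_pos k
    refine ⟨k, hk1, hk2, hk3, ?_, ?_, ?_⟩
    · rcases Nat.eq_zero_or_pos k with h0 | h0
      · rw [h0, Pd_zero, mul_one]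
        linarith
      · obtain ⟨j, hj⟩ : ∃ j, k = j + 1 := ⟨k - 1, by omega⟩
        have h5 := hk1 j (by omega)
        have h7 := h.Pd_pos j
        have h8 : s * Pd d c₁ j ≤ 2 := by
          refine le_trans ?_ (h5.trans (h.bd j))
          have h9 : 1 ≤ B * θ ^ j := by
            have := one_le_pow₀ (n := j) hθ.le
            nlinarith
          nlinarith [mul_pos h7 hs0]
        rw [hj, Pd_succ]
        have h10 := h.bd' j
        calc s * (d * ‖zz d c₁ j‖ ^ (d - 1) * Pd d c₁ j)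
            = d * ‖zz d c₁ j‖ ^ (d - 1) * (s * Pd d c₁ j) := by ring
          _ ≤ d * 2 * 2 := by gcongr
          _ = _ := by ring
    · set P := Pd d c₁ k with hPdef
      set q := θ ^ k with hq
      have hq1 : 1 ≤ q := one_le_pow₀ hθ.le
      have h2 : (q ^ 2) ^ d ≤ (W * P) ^ d := by
        calc (q ^ 2) ^ d = q ^ (2 * d) := by rw [← pow_mul]
          _ ≤ W * (s ^ (d - 1) * P ^ d) := hk5
          _ ≤ W ^ d * (1 * P ^ d) := by
              have e1 : W ≤ W ^ d := le_self_pow₀ hW1 (by omega)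
              have e2 : s ^ (d - 1) ≤ 1 := pow_le_one₀ hs0.le hs1
              gcongr
          _ = _ := by rw [mul_pow]; ring
      have h3 : q ^ 2 ≤ W * P := le_of_pow_le_pow_left₀ (by omega) (by positivity) h2
      have h4 : q ≤ W * P := by
        refine le_trans ?_ h3
        calc q = q ^ 1 := (pow_one q).symm
          _ ≤ q ^ 2 := pow_le_pow_right₀ hq1 (by norm_num)
      have h5 : (W * s) ^ e ≤ W * s ^ e := by
        rw [Real.mul_rpow (by positivity) hs0.le]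
        gcongr
        calc W ^ e ≤ W ^ (1 : ℝ) := Real.rpow_le_rpow_of_exponent_le hW1 he1'
          _ = W := Real.rpow_one _
      calc 1 ≤ (W * s) ^ e * q := hk6
        _ ≤ (W * s ^ e) * (W * P) := by gcongr
        _ = _ := by ring
    · rw [← hNdef]
      refine hk4.trans ?_
      have h1 : W ≤ W ^ 2 := le_self_pow₀ hW1 (by norm_num)
      gcongr

end Pool.Agent.Y298.CA
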