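import Mathlib
import Pool.Agent.Y298.CA.Mn
import Pool.Agent.Y298.CD.Fin
import Pool.Agent.Y925.CA.Br

/-!
# From the parameter plane to slow curves
-/

set_option autoImplicit false

open Set Filter Metric MeasureTheory

namespace Pool.Agent.Y298.CA

open Pool.Agent.TH279.MD Pool.Agent.Y298.SH Pool.Agent.Y298.SH.CD

variable {d : ℕ} {C₁ lam C₂ β : ℝ} {c₀ : ℂ}

theorem multibrot_eq (hd : 2 ≤ d) : N62a1eb23.multibrotSet d = BB d id := by
  ext w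
  rw [Pool.Agent.H712R2.mem_multibrot_iff hd]
  constructor
  · intro h n
    have h1 := h (n + 1)
    rw [P_succ_eq hd] at h1
    exact h1
  · intro h n
    rcases Nat.eq_zero_or_pos n with h0 | h0
    · rw [h0]
      have : Pool.Agent.H712R2.P d 0 w = 0 := rfl
      rw [this, norm_zero]
      norm_num
    · obtain ⟨m, rfl⟩ : ∃ m, n = m + 1 := ⟨n - 1, by omega⟩
      rw [P_succ_eq hd]
      exact h m

/-- **The start in the parameter plane.** -/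
theorem par_start (htr : S_TR) {θ B Ca W : ℝ} (hW : 1 ≤ W) (hPC : PC d C₁ lam θ B Ca)
    (h : CEp d C₁ lam c₀) :
    ∃ ε₁ K₂ Cp e₀ s₀ : ℝ, 0 < ε₁ ∧ 0 < K₂ ∧ 0 < Cp ∧ 0 < e₀ ∧ 0 < s₀ ∧ s₀ ≤ 1 ∧
      ∀ c₁ : ℂ, CEp d C₁ lam c₁ → ‖c₁ - c₀‖ ≤ e₀ → ∀ s : ℝ, 0 < s → s ≤ s₀ → ∀ k : ℕ,
        (∀ j < k, B * θ ^ j * s * Pd d c₁ j ≤ ‖zz d c₁ j‖) → s * Pd d c₁ k ≤ 4 * d →
        1 ≤ W * NN d ^ k * s →
        volume (N62a1eb23.multibrotSet d ∩ closedBall c₁ (ε₁ * s)) ≤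
          ENNReal.ofReal (Cp * (1 / Pd d c₁ k) ^ 2) * SS d c₁ (s / 2) (K₂ / Pd d c₁ k) := by
  have hd := h.hd
  have hdR : (2 : ℝ) ≤ d := by exact_mod_cast hd
  have hW0 : 0 < W := by linarith
  obtain ⟨κg, εg, J, hκg, hεg, hgrow⟩ := h.grow
  have hCa1 := hPC.Ca1
  have hCa0 : 0 < Ca := by linarith
  have hN1 : (1 : ℝ) ≤ NN d := by
    unfold NN
    have h1 : (1 : ℝ) ≤ 2 ^ (d - 1) := one_le_pow₀ (by norm_num)
    have h2 : (1 : ℝ) ≤ (2 * d) ^ d := one_le_pow₀ (by linarith)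
    exact one_le_mul_of_one_le_of_one_le h1 h2
  set μ : ℝ := min (1 / 4) (min (κg / (64 * Ca)) (1 / (8 * d * Ca))) with hμ
  have hμ0 : 0 < μ := lt_min (by norm_num) (lt_min (by positivity) (by positivity))
  have hμ1 : μ ≤ 1 / 4 := min_le_left _ _
  have hμ2 : 64 * Ca * μ ≤ κg := by
    have h1 : μ ≤ κg / (64 * Ca) := (min_le_right _ _).trans (min_le_left _ _)
    rw [le_div_iff₀ (by positivity)] at h1
    linarith
  have hμ3 : 8 * d * Ca * μ ≤ 1 := by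
    have h1 : μ ≤ 1 / (8 * d * Ca) := (min_le_right _ _).trans (min_le_right _ _)
    rw [le_div_iff₀ (by positivity)] at h1
    linarith
  set s₀ : ℝ := 1 / (2 * W * NN d ^ J) with hs₀
  have hNJ1 : (1 : ℝ) ≤ NN d ^ J := one_le_pow₀ hN1
  have hNJ : (0 : ℝ) < NN d ^ J := by linarith
  have hs₀0 : 0 < s₀ := by positivity
  have hs₀1 : s₀ ≤ 1 := by
    rw [hs₀, div_le_one (by positivity)]
    nlinarith
  refine ⟨μ / 16, 4 / (3 * κg), 2 / κg ^ 2, εg, s₀, by positivity, by positivity, by positivity,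
    hεg, hs₀0, hs₀1, ?_⟩
  intro c₁ hc₁ hcc s hs0 hss k hk hsP hWN
  have hJk : J ≤ k := by
    by_contra hcon
    rw [not_le] at hcon
    have h1 : NN d ^ k ≤ NN d ^ J := pow_le_pow_right₀ hN1 hcon.le
    have h2 : W * NN d ^ k * s ≤ W * NN d ^ J * s₀ := by gcongr
    have h3 : W * NN d ^ J * s₀ = 1 / 2 := by rw [hs₀]; field_simp
    linarith
  have hP0 := hc₁.Pd_pos k
  set P := Pd d c₁ k with hP
  have hg := hgrow c₁ hc₁ c₁ hcc k hJk (fun j _ => by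
    have h1 : Pd d c₁ j = ‖deriv ((f d c₁)^[j]) c₁‖ := rfl
    have h2 := hc₁.Pd_pos j
    rw [← h1]
    linarith)
  rw [P_succ_eq hd] at hg
  have hΦ : GG d id k = fun c => (f d c)^[k] c := rfl
  rw [← hΦ, ← hP] at hg
  set D := deriv (GG d id k) c₁ with hD
  have hD0 : 0 < ‖D‖ := lt_of_lt_of_le (by positivity) hg
  have hΦd : Differentiable ℂ (GG d id k) := by
    rw [hΦ]
    intro c
    have h1 := (Pool.Agent.H713R2.differentiable_P d (k + 1)) c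
    rw [P_succ_eq hd] at h1
    exact h1
  have hbd : ∀ v ∈ ball c₁ s, ‖GG d id k v - zz d c₁ k‖ ≤ Ca * s * P := by
    intro v hv
    rw [mem_ball, dist_eq_norm] at hv
    exact (hPC.pass c₁ hc₁ v s k hs0 hv.le hk v (mem_ball_self hs0) k le_rfl).1
  have hDle : ‖D‖ ≤ 2 * Ca * P := by
    have h2 := Complex.norm_deriv_le_of_forall_mem_sphere_norm_le (c := c₁) (R := s / 2)
      (C := Ca * s * P) (f := fun x => GG d id k x - zz d c₁ k) (by positivity)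
      (hΦd.sub_const _).diffContOnCl (fun x hx => by
        apply hbd
        rw [mem_sphere] at hx
        rw [mem_ball]
        linarith)
    rw [deriv_sub_const] at h2
    calc ‖D‖ ≤ Ca * s * P / (s / 2) := h2
      _ = _ := by field_simp
  have hvar : ∀ w' ∈ ball c₁ (μ * s), ‖deriv (GG d id k) w' - D‖ ≤ 1 / 4 * ‖D‖ := by
    intro w' hw'
    rw [mem_ball, dist_eq_norm] at hw'
    have h1 : μ * s ≤ s / 4 := by nlinarith
    have h2 := Pool.Agent.Y925.CA.Br.cauchy2 hΦd (y := c₁) (w := zz d c₁ k) (R := Ca * s * P)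
      (ρ := s) (by positivity) hs0 hbd (y' := w') (by linarith)
    calc ‖deriv (GG d id k) w' - D‖ ≤ 16 * (Ca * s * P) / s ^ 2 * ‖w' - c₁‖ := h2
      _ ≤ 16 * (Ca * s * P) / s ^ 2 * (μ * s) := by gcongr
      _ = (64 * Ca * μ) / 4 * P := by
          field_simp
          ring
      _ ≤ κg / 4 * P := by gcongr
      _ = 1 / 4 * (κg * P) := by ring
      _ ≤ _ := by gcongr
  have hT := htr d c₁ (s / 2) (4 / (3 * κg) / P) 1 id c₁ (μ * s) k D hd (by positivity)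
    differentiableOn_id (fun w' hw' => by
      rw [mem_ball, dist_eq_norm] at hw'
      have h1 : μ * s ≤ s / 4 := by nlinarith
      simp only [id]
      linarith) (fun w' _ => by simp) (by
      have h1 : 3 / 4 * (4 / (3 * κg) / P * (κg * P)) = 1 := by field_simp
      rw [← h1]
      gcongr) (norm_pos_iff.mp hD0) (by
      calc ‖D‖ * (μ * s) ≤ (2 * Ca * P) * (μ * s) := by gcongr
        _ = 2 * Ca * μ * (s * P) := by ring
        _ ≤ 2 * Ca * μ * (4 * d) := by gcongr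
        _ = 8 * d * Ca * μ := by ring
        _ ≤ 5 := by linarith) hvar
  rw [← multibrot_eq hd] at hT
  have e1 : μ * s / 16 = μ / 16 * s := by ring
  rw [e1] at hT
  refine hT.trans ?_
  gcongr ?_ * _
  apply ENNReal.ofReal_le_ofReal
  calc 2 / ‖D‖ ^ 2 ≤ 2 / (κg * P) ^ 2 := by gcongr
    _ = _ := by field_simp

/-- **The area of the connectedness locus near a Collet-Eckmann parameter, in terms of the
derivative.** -/
theorem par_area (Jb : JB) {θ B Ca e Cs W ε K₁ R₀ Y : ℝ}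
    (K : K0 d C₁ lam θ B Ca e Cs W ε K₁ R₀ Y) (h : CEp d C₁ lam c₀) :
    ∃ ε₁ C e₀ s₀ : ℝ, 0 < ε₁ ∧ 0 < C ∧ 0 < e₀ ∧ 0 < s₀ ∧ s₀ ≤ 1 ∧
      ∀ c₁ : ℂ, CEp d C₁ lam c₁ → ‖c₁ - c₀‖ ≤ e₀ → ∀ s : ℝ, 0 < s → s ≤ s₀ → ∃ k : ℕ,
        ‖zz d c₁ k‖ < B * θ ^ k * s * Pd d c₁ k ∧ lam ^ k * s ≤ 2 * C₁ * lam ∧
        (volume (N62a1eb23.multibrotSet d ∩ closedBall c₁ (ε₁ * s))).toReal ≤
          C * (1 / Pd d c₁ k) ^ (2 * (d : ℝ) / ((d : ℝ) - 1)) := by
  have hd := h.hd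
  have hdR : (2 : ℝ) ≤ d := by exact_mod_cast hd
  have hd1 : 0 < (d : ℝ) - 1 := by linarith
  obtain ⟨ε₁, K₂, Cp, e₁, s₁, hε₁, hK₂, hCp, he₁, hs₁, hs₁1, H1⟩ :=
    par_start Jb.tr K.ft.W1 K.pc h
  set m : ℝ := (((d - 1 : ℕ) : ℝ))⁻¹ with hm
  obtain ⟨C, e₂, s₂, hC, he₂, hs₂, hs₂1, H2⟩ := main_local Jb K h hK₂ hm
  refine ⟨ε₁, Cp * C, min e₁ e₂, min s₁ s₂, hε₁, by positivity, lt_min he₁ he₂, lt_min hs₁ hs₂,
    (min_le_left _ _).trans hs₁1, ?_⟩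
  intro c₁ hc₁ hcc s hs0 hss
  have hs1 : s ≤ 1 := hss.trans ((min_le_left _ _).trans hs₁1)
  obtain ⟨k, hk1, hk2, hk3, hk4, hk5, hk6⟩ := K.ft.base c₁ hc₁ s hs0 hs1
  have h1 := H1 c₁ hc₁ (hcc.trans (min_le_left _ _)) s hs0 (hss.trans (min_le_left _ _)) k hk1 hk4
    hk6
  have h2 := H2 c₁ hc₁ (hcc.trans (min_le_right _ _)) s hs0 (hss.trans (min_le_right _ _)) k hk1 hk4
    hk5
  refine ⟨k, hk2, hk3, ?_⟩
  have hP0 := hc₁.Pd_pos k
  set P := Pd d c₁ k with hP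
  have hS0 := sS_nonneg d c₁ (s / 2) (K₂ / P)
  rw [← ofReal_sS, ← ENNReal.ofReal_mul (by positivity)] at h1
  have h3 := ENNReal.toReal_mono ENNReal.ofReal_ne_top h1
  rw [ENNReal.toReal_ofReal (by positivity)] at h3
  refine h3.trans ?_
  calc Cp * (1 / P) ^ 2 * sS d c₁ (s / 2) (K₂ / P)
      ≤ Cp * (1 / P) ^ 2 * (C * (1 / P) ^ (2 * m)) := by gcongr
    _ = Cp * C * ((1 / P) ^ (2 : ℝ) * (1 / P) ^ (2 * m)) := by
        rw [Real.rpow_two]
        ring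
    _ = _ := by
        rw [← Real.rpow_add (by positivity)]
        congr 2
        rw [hm, Nat.cast_sub (by omega), Nat.cast_one]
        field_simp
        ring

end Pool.Agent.Y298.CA
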