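import Mathlib
import Pool.Agent.Y298.CA.Par

/-!
# The area of the connectedness locus near Collet-Eckmann parameters
-/

set_option autoImplicit false

open Set Filter Metric MeasureTheory

namespace Pool.Agent.Y298.CA

open Pool.Agent.TH279.MD Pool.Agent.Y298.SH Pool.Agent.Y298.SH.CD

variable {d : ℕ} {C₁ lam C₂ β : ℝ} {c₀ : ℂ}

/-- all the jobs -/
structure JC : Prop where
  jb : JB
  br : S_BR
  nh : S_NH
  pa : S_PA
  bi : S_BI

/-- **The sharp bound of the area, locally.** -/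
theorem area_local (J : JC) (h : CEp d C₁ lam c₀) (hC₂ : 0 < C₂) (hβ : 0 ≤ β) {t : ℝ}
    (ht0 : 0 ≤ t) (ht : t * (1 + β) < 1) :
    ∃ C ε : ℝ, 0 < C ∧ 0 < ε ∧ ∀ c₁ : ℂ, CEp d C₁ lam c₁ → Rec d C₂ β c₁ → ‖c₁ - c₀‖ ≤ ε →
      ∀ r : ℝ, 0 < r → r ≤ ε →
        (volume (N62a1eb23.multibrotSet d ∩ closedBall c₁ r)).toReal ≤
          C * r ^ (t * (2 * (d : ℝ) / ((d : ℝ) - 1))) := by
  have hd := h.hd
  have hdR : (2 : ℝ) ≤ d := by exact_mod_cast hd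
  have hd1 : 0 < (d : ℝ) - 1 := by linarith
  have hl := h.lam1
  have hl0 : 0 < lam := by linarith
  have hC1 := h.C1
  have hloglam : 0 < Real.log lam := Real.log_pos hl
  have hlog2 : 0 < Real.log 2 := Real.log_pos (by norm_num)
  -- the exponent `ω`
  set ω : ℝ := min (1 / (3 * d)) (min (Real.log 2 / Real.log lam) (1 - t * (1 + β))) with hω
  have hω0 : 0 < ω := by
    refine lt_min (by positivity) (lt_min (by positivity) (by linarith))
  have hω1 : ω ≤ 1 / (3 * d) := min_le_left _ _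
  have hω2 : ω ≤ Real.log 2 / Real.log lam := (min_le_right _ _).trans (min_le_left _ _)
  have hω3 : ω ≤ 1 - t * (1 + β) := (min_le_right _ _).trans (min_le_right _ _)
  set θ : ℝ := lam ^ ω with hθ
  have hθ1 : 1 < θ := Real.one_lt_rpow hl hω0
  have hθ2 : θ ≤ 2 := by
    rw [hθ, Real.rpow_def_of_pos hl0]
    rw [le_div_iff₀ hloglam] at hω2
    calc Real.exp (Real.log lam * ω) ≤ Real.exp (Real.log 2) := Real.exp_le_exp.mpr (by linarith)
      _ = 2 := Real.exp_log (by norm_num)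
  have hθd : θ ^ (3 * d) ≤ lam := by
    rw [hθ, ← Real.rpow_natCast, ← Real.rpow_mul hl0.le]
    have h1 : ω * ((3 * d : ℕ) : ℝ) ≤ 1 := by
      push_cast
      rw [le_div_iff₀ (by positivity)] at hω1
      exact hω1
    calc lam ^ (ω * ((3 * d : ℕ) : ℝ)) ≤ lam ^ (1 : ℝ) :=
          Real.rpow_le_rpow_of_exponent_le hl.le h1
      _ = lam := Real.rpow_one lam
  obtain ⟨B, Ca, e, Cs, W, ε, K₁, R₀, Y, K⟩ := k0_exists J.br J.nh J.pa J.bi hd C₁ lam θ hC1 hl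
    hθ1 hθ2 hθd
  obtain ⟨ε₁, C, e₀, s₀, hε₁, hC, he₀, hs₀, hs₀1, H⟩ := par_area J.jb K h
  have hB1 : 1 ≤ B := K.pc.Ca1.trans K.pc.CaB
  have hB0 : 0 < B := by linarith
  have hC₁0 : 0 < C₁ := by linarith
  set q : ℝ := 1 / (1 + β) with hq
  have hβ1 : 0 < 1 + β := by linarith
  have hq0 : 0 < q := by positivity
  set F : ℝ := C₂ * B * (2 * C₁ * lam) ^ ω with hF
  have hF0 : 0 < F := by positivity
  set Fq : ℝ := F ^ q with hFq
  have hFq0 : 0 < Fq := by positivity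
  set E : ℝ := 2 * (d : ℝ) / ((d : ℝ) - 1) with hE
  have hE0 : 0 < E := by positivity
  refine ⟨C * (Fq * (1 / ε₁) ^ t) ^ E, min e₀ (ε₁ * s₀), by positivity, by positivity, ?_⟩
  intro c₁ hc₁ hrec hcc r hr0 hrs
  set s : ℝ := r / ε₁ with hs
  have hs0 : 0 < s := by positivity
  have hss : s ≤ s₀ := by
    rw [hs, div_le_iff₀ hε₁]
    linarith [min_le_right e₀ (ε₁ * s₀)]
  have hs1 : s ≤ 1 := hss.trans hs₀1
  obtain ⟨k, hk2, hk3, hk4⟩ := H c₁ hc₁ (hcc.trans (min_le_left _ _)) s hs0 hss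
  rw [show ε₁ * s = r by rw [hs]; field_simp] at hk4
  set Q := Pd d c₁ k with hQ
  have hQ0 : 0 < Q := hc₁.Pd_pos k
  -- bound of `θ ^ k`
  have h1 : θ ^ k ≤ (2 * C₁ * lam) ^ ω * s ^ (-ω) := by
    have h2 : θ ^ k = (lam ^ k) ^ ω := by
      rw [hθ, ← Real.rpow_natCast, ← Real.rpow_natCast, ← Real.rpow_mul hl0.le,
        ← Real.rpow_mul hl0.le, mul_comm]
    have h3 : lam ^ k ≤ 2 * C₁ * lam / s := by rwa [le_div_iff₀ hs0]
    rw [h2]
    calc (lam ^ k) ^ ω ≤ (2 * C₁ * lam / s) ^ ω := Real.rpow_le_rpow (by positivity) h3 hω0.le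
      _ = _ := by
          rw [Real.div_rpow (by positivity) hs0.le, Real.rpow_neg hs0.le]
          rfl
  -- bound of `Q`
  have h2 : 1 ≤ F * s ^ (1 - ω) * Q ^ (1 + β) := by
    have h3 := hrec k
    have hPβ : 0 < Q ^ β := Real.rpow_pos_of_pos hQ0 β
    calc 1 ≤ C₂ * (‖zz d c₁ k‖ * Q ^ β) := h3
      _ ≤ C₂ * ((B * θ ^ k * s * Q) * Q ^ β) := by gcongr
      _ ≤ C₂ * ((B * ((2 * C₁ * lam) ^ ω * s ^ (-ω)) * s * Q) * Q ^ β) := by gcongr
      _ = F * (s ^ (-ω) * s) * (Q * Q ^ β) := by rw [hF]; ring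
      _ = _ := by
          rw [Real.rpow_add hQ0, Real.rpow_one, sub_eq_add_neg, Real.rpow_add hs0, Real.rpow_one]
          ring
  have h3 : 1 / Q ≤ Fq * s ^ t := by
    have h4 : (1 / Q : ℝ) = (1 / Q ^ (1 + β)) ^ q := by
      rw [Real.div_rpow zero_le_one (by positivity), Real.one_rpow, ← Real.rpow_mul hQ0.le, hq,
        mul_div_cancel₀ _ hβ1.ne', Real.rpow_one]
    have h5 : (1 / Q : ℝ) ≤ (F * s ^ (1 - ω)) ^ q := by
      rw [h4]
      apply Real.rpow_le_rpow (by positivity) _ hq0.le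
      rw [div_le_iff₀ (by positivity)]
      exact h2
    have h6 : (s ^ (1 - ω)) ^ q ≤ s ^ t := by
      rw [← Real.rpow_mul hs0.le]
      apply Real.rpow_le_rpow_of_exponent_ge hs0 hs1
      rw [hq, mul_one_div, le_div_iff₀ hβ1]
      linarith
    calc (1 / Q : ℝ) ≤ (F * s ^ (1 - ω)) ^ q := h5
      _ = F ^ q * (s ^ (1 - ω)) ^ q := Real.mul_rpow hF0.le (by positivity)
      _ ≤ _ := by gcongr
  refine hk4.trans ?_
  calc C * (1 / Q) ^ E ≤ C * (Fq * s ^ t) ^ E := by gcongr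
    _ = C * ((Fq * (1 / ε₁) ^ t) * r ^ t) ^ E := by
        congr 2
        rw [hs, div_eq_mul_one_div, Real.mul_rpow hr0.le (by positivity)]
        ring
    _ = C * (Fq * (1 / ε₁) ^ t) ^ E * (r ^ t) ^ E := by
        rw [Real.mul_rpow (by positivity) (by positivity)]
        ring
    _ = _ := by rw [← Real.rpow_mul hr0.le]

/-- **The sharp bound of the area.** -/
theorem area_uniform (J : JC) (hd : 2 ≤ d) (C₁ lam : ℝ) (hC₂ : 0 < C₂) (hβ : 0 ≤ β) {t : ℝ}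
    (ht0 : 0 ≤ t) (ht : t * (1 + β) < 1) :
    ∃ C : ℝ, 0 < C ∧ ∀ c₁ : ℂ, CEp d C₁ lam c₁ → Rec d C₂ β c₁ → ∀ r : ℝ, 0 < r →
      volume (N62a1eb23.multibrotSet d ∩ closedBall c₁ r) ≤
        ENNReal.ofReal (C * r ^ (t * (2 * (d : ℝ) / ((d : ℝ) - 1)))) := by
  have hdR : (2 : ℝ) ≤ d := by exact_mod_cast hd
  have hd1 : 0 < (d : ℝ) - 1 := by linarith
  set E : ℝ := t * (2 * (d : ℝ) / ((d : ℝ) - 1)) with hE
  have hE0 : 0 ≤ E := by positivity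
  have hloc : ∀ c₀ : ℂ, ∃ C ε : ℝ, 0 < C ∧ 0 < ε ∧ (CEp d C₁ lam c₀ → ∀ c₁ : ℂ, CEp d C₁ lam c₁ →
      Rec d C₂ β c₁ → ‖c₁ - c₀‖ ≤ ε → ∀ r : ℝ, 0 < r → r ≤ ε →
        (volume (N62a1eb23.multibrotSet d ∩ closedBall c₁ r)).toReal ≤ C * r ^ E) := by
    intro c₀
    by_cases h : CEp d C₁ lam c₀
    · obtain ⟨C, ε, hC, hε, H⟩ := area_local J h hC₂ hβ ht0 ht
      exact ⟨C, ε, hC, hε, fun _ => H⟩
    · exact ⟨1, 1, one_pos, one_pos, fun h' => absurd h' h⟩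
  choose CC εε hCC hεε H using hloc
  obtain ⟨F, hFS, hF⟩ := (isCompact_CEp d C₁ lam).elim_nhds_subcover
    (fun c₀ => ball c₀ (εε c₀))
    (fun c₀ _ => ball_mem_nhds c₀ (hεε c₀))
  obtain ⟨ε, hε0, hε⟩ : ∃ ε : ℝ, 0 < ε ∧ ∀ c₀ ∈ F, ε ≤ εε c₀ := by
    by_cases hne : F.Nonempty
    · exact ⟨F.inf' hne (fun c₀ => εε c₀), (Finset.lt_inf'_iff hne).mpr fun c₀ _ => hεε c₀,
        fun c₀ hc₀ => Finset.inf'_le _ hc₀⟩
    · rw [Finset.not_nonempty_iff_eq_empty] at hne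
      exact ⟨1, one_pos, fun c₀ hc₀ => by rw [hne] at hc₀; simp at hc₀⟩
  set Cs : ℝ := ∑ c₀ ∈ F, CC c₀ with hCs
  have hCs0 : 0 ≤ Cs := Finset.sum_nonneg fun c₀ _ => (hCC c₀).le
  have hCsle : ∀ c₀ ∈ F, CC c₀ ≤ Cs := fun c₀ hc₀ =>
    Finset.single_le_sum (f := CC) (fun c₀ _ => (hCC c₀).le) hc₀
  set V₀ : ℝ := (volume (closedBall (0 : ℂ) 2)).toReal with hV₀
  have hV₀0 : 0 ≤ V₀ := ENNReal.toReal_nonneg
  have hV₀fin : volume (closedBall (0 : ℂ) 2) ≠ ⊤ := (isCompact_closedBall _ _).measure_lt_top.ne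
  have hMsub : N62a1eb23.multibrotSet d ⊆ closedBall 0 2 := by
    intro c hc
    rw [mem_closedBall_zero_iff]
    exact norm_le_two hd hc
  have hMfin : ∀ c₁ r, volume (N62a1eb23.multibrotSet d ∩ closedBall c₁ r) ≠ ⊤ := fun c₁ r =>
    ne_top_of_le_ne_top hV₀fin (measure_mono (inter_subset_left.trans hMsub))
  have hεE : 0 < ε ^ E := by positivity
  refine ⟨Cs + V₀ / ε ^ E + 1, by positivity, ?_⟩
  intro c₁ hc₁ hrec r hr
  have hrE : 0 ≤ r ^ E := by positivity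
  have hq1 : 0 ≤ V₀ / ε ^ E := by positivity
  rw [← ENNReal.ofReal_toReal (hMfin c₁ r)]
  apply ENNReal.ofReal_le_ofReal
  rcases le_or_gt r ε with hce | hce
  · have h1 := hF hc₁
    rw [mem_iUnion₂] at h1
    obtain ⟨c₀, hc₀t, hc₀⟩ := h1
    rw [mem_ball, dist_eq_norm] at hc₀
    have h2 := H c₀ (hFS c₀ hc₀t) c₁ hc₁ hrec hc₀.le r hr (hce.trans (hε c₀ hc₀t))
    have h3 := hCsle c₀ hc₀t
    exact h2.trans (mul_le_mul_of_nonneg_right (by linarith) hrE)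
  · have h1 : (volume (N62a1eb23.multibrotSet d ∩ closedBall c₁ r)).toReal ≤ V₀ :=
      ENNReal.toReal_mono hV₀fin (measure_mono (inter_subset_left.trans hMsub))
    have h2 : ε ^ E ≤ r ^ E := Real.rpow_le_rpow hε0.le hce.le hE0
    calc (volume (N62a1eb23.multibrotSet d ∩ closedBall c₁ r)).toReal ≤ V₀ := h1
      _ = V₀ / ε ^ E * ε ^ E := by field_simp
      _ ≤ V₀ / ε ^ E * r ^ E := by gcongr
      _ ≤ _ := by
          gcongr
          linarith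

end Pool.Agent.Y298.CA
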