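import Mathlib
import Pool.Agent.Y298.CA.Up
import Pool.Agent.Y79.CA.Cov
import Pool.Agent.Y79.CA.Pe
import Pool.Agent.Y261.CA.Push
import Pool.Agent.Y274.CA.Tr
import Pool.Agent.Y932.CA.ME
import Pool.Agent.Y925.CA.Br
import Pool.Agent.Y737.CA.Radial
import Pool.Agent.Y434.CA.Pa
import Pool.Agent.Y220.CA.BI
import Pool.Agent.Y811.CA.PS
import Pool.Agent.Y356.CA.NH

/-!
# The area of the connectedness locus near Collet-Eckmann parameters: final form
-/

set_option autoImplicit false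

open Set Filter Metric MeasureTheory

namespace Pool.Agent.Y298.CA

open Pool.Agent.TH279.MD Pool.Agent.Y298.SH Pool.Agent.Y298.SH.CD

theorem jc : JC :=
  { jb :=
      { cov := Pool.Agent.Y79.CA.cov
        tr := Pool.Agent.Y274.CA.tr
        me := Pool.Agent.Y932.CA.me
        one := Pool.Agent.Y932.CA.one
        pe := Pool.Agent.Y79.CA.pe
        ra := Pool.Agent.Y737.CA.ra
        rb := Pool.Agent.Y737.CA.rb
        ps := Pool.Agent.Y811.CA.ps }
    br := Pool.Agent.Y925.CA.Br.br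
    nh := Pool.Agent.Y356.CA.nh
    pa := Pool.Agent.Y434.CA.pa
    bi := Pool.Agent.Y220.CA.bi Pool.Agent.Y261.CA.push }

variable {d : ℕ} {C₂ β : ℝ}

/-- **The sharp bound of the area of the connectedness locus near Collet-Eckmann parameters.** -/
theorem area_final (hd : 2 ≤ d) (C₁ lam : ℝ) (hC₂ : 0 < C₂) (hβ : 0 ≤ β) {t : ℝ}
    (ht0 : 0 ≤ t) (ht : t * (1 + β) < 1) :
    ∃ C : ℝ, 0 < C ∧ ∀ c₁ : ℂ, CEp d C₁ lam c₁ → Rec d C₂ β c₁ → ∀ r : ℝ, 0 < r →
      volume (N62a1eb23.multibrotSet d ∩ closedBall c₁ r) ≤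
        ENNReal.ofReal (C * r ^ (t * (2 * (d : ℝ) / ((d : ℝ) - 1)))) :=
  area_uniform jc hd C₁ lam hC₂ hβ ht0 ht

end Pool.Agent.Y298.CA
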