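import Mathlib
import Pool.Agent.Y298.CA.Base
import Pool.Agent.Y298.CD.Fin
import Pool.Agent.Lev.J_schottky

/-!
# Lower bounds: hyperbolic discs near parameters with a positive Lyapunov exponent, statements
-/

set_option autoImplicit false

open Set Filter Metric MeasureTheory Topology

namespace Pool.Agent.Y298.CA

open Pool.Agent.TH279.MD Pool.Agent.Y298.SH Pool.Agent.Y298.SH.CD
open Pool.Agent.H712R2 (P)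

/-- Existence of superattracting parameters of controlled period (Schottky). -/
def S_SCH : Prop := ∀ (d : ℕ) (C₁ lam : ℝ) (c₀ : ℂ), CEp d C₁ lam c₀ →
  ∃ (C r₀ : ℝ) (J : ℕ), 0 < C ∧ 0 < r₀ ∧ ∀ r : ℝ, 0 < r → r ≤ r₀ → ∀ N : ℕ, J ≤ N →
    C < r * Pd d c₀ N → ∃ n : ℕ, 1 ≤ n ∧ n ≤ N + 1 ∧ ∃ c' ∈ ball c₀ r, P d n c' = 0

/-- A disc of hyperbolic parameters around a superattracting one. -/
def S_ATT : Prop := ∀ (d n : ℕ) (c' : ℂ) (η ρ A D : ℝ), 2 ≤ d → 1 ≤ n → P d n c' = 0 →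
  0 < η → 0 < ρ → (∀ c ∈ ball c' η, ‖deriv (P d n) c‖ ≤ D) →
  (∀ c ∈ ball c' η, ∀ x ∈ closedBall c (ρ ^ d), ‖deriv ((f d c)^[n - 1]) x‖ ≤ A) →
  2 * D * η ≤ ρ → 2 * d * A * ρ ^ (d - 1) ≤ 1 →
  ∀ c ∈ ball c' η, c ∈ N62a1eb23.multibrotSet d ∧
    ∃ (m : ℕ) (z : ℂ), N62a1eb23.IsAttractingCycle (f d c) m z

/-- Upper bounds of the derivatives near a superattracting parameter close to a Collet-Eckmann
parameter: the passage up to the time `k`, then `m` further steps. -/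
def S_TWO : Prop := ∀ (d : ℕ) (C₁ lam θ B Ca : ℝ), 2 ≤ d → PC d C₁ lam θ B Ca →
  ∀ c₀ : ℂ, CEp d C₁ lam c₀ → ∀ (s G : ℝ) (k m : ℕ), 0 < s → s ≤ 1 →
  (∀ j < k, B * θ ^ j * s * Pd d c₀ j ≤ ‖zz d c₀ j‖) → (∀ j ≤ k, Pd d c₀ j ≤ G) →
  ∀ c' : ℂ, ‖c' - c₀‖ ≤ s / 4 → (∀ j, ‖P d j c'‖ ≤ 2) → ∀ η ρ' : ℝ, 0 < η → η ≤ s / 4 →
  0 < ρ' → ρ' ≤ s / 2 →
  (2 * G * ρ' + 2 * Ca * G * η + η) * (d * 3 ^ (d - 1) + 1) ^ m ≤ 1 →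
  ∀ c ∈ ball c' η, ∀ j ≤ k + m,
    (∀ x ∈ closedBall c ρ', ‖deriv ((f d c)^[j]) x‖ ≤ 2 * G * (d * 3 ^ (d - 1) + 1) ^ m) ∧
    ‖deriv (P d (j + 1)) c‖ ≤ (2 * Ca * G + 1) * (d * 3 ^ (d - 1) + 1) ^ m

/-- Parameters with a positive Lyapunov exponent at the critical value. -/
def Lyap (d : ℕ) (χ : ℝ) (c : ℂ) : Prop := 0 < χ ∧ c ∈ N62a1eb23.multibrotSet d ∧
  Tendsto (fun n : ℕ => Real.log ‖deriv ((f d c)^[n]) c‖ / n) atTop (𝓝 χ)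

/-- Constants for parameters with a positive Lyapunov exponent. -/
def S_LYA : Prop := ∀ (d : ℕ) (χ : ℝ) (c₀ : ℂ), 2 ≤ d → Lyap d χ c₀ →
  (∃ C₁ lam : ℝ, CEp d C₁ lam c₀) ∧
  ∀ ε : ℝ, 0 < ε → ∃ C : ℝ, 1 ≤ C ∧ ∀ n : ℕ, Real.exp ((χ - ε) * n) ≤ C * Pd d c₀ n ∧
    Pd d c₀ n ≤ C * Real.exp ((χ + ε) * n) ∧ 1 ≤ C * Real.exp (ε * n) * ‖zz d c₀ n‖

end Pool.Agent.Y298.CA
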