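import Mathlib
import Pool.Agent.Y298.CA.Stm
import Pool.Agent.Y298.CA.Stm2

/-!
# Lower bounds: hyperbolic discs near parameters with a positive Lyapunov exponent
-/

set_option autoImplicit false

open Set Filter Metric MeasureTheory Topology

namespace Pool.Agent.Y298.CA

open Pool.Agent.TH279.MD Pool.Agent.Y298.SH Pool.Agent.Y298.SH.CD
open Pool.Agent.H712R2 (P)

/-- first index -/
theorem first_ge {p : ℕ → ℝ} {X : ℝ} (h : ∃ n, X ≤ p n) : ∃ k, X ≤ p k ∧ ∀ j < k, p j < X := by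
  classical
  exact ⟨Nat.find h, Nat.find_spec h, fun j hj => not_le.mp (Nat.find_min h hj)⟩

/-- the arithmetic of the number of additional steps -/
theorem steps {χ ε₁ ε₂ l lC : ℝ} {k N : ℕ} (hχ : 0 < χ) (hε₁ : 0 < ε₁) (hε₁' : ε₁ ≤ 1 / 2)
    (hε₂ : 0 < ε₂) (hε₂' : ε₂ ≤ ε₁ * χ / 8) (hl : 0 ≤ l) (hlC : 0 ≤ lC)
    (h1 : (χ - ε₂) * ((N : ℝ) - 1) ≤ lC + (1 + ε₁) * l)
    (h2 : (1 - ε₁) * l - lC ≤ (χ + ε₂) * k) :
    (N : ℝ) - k ≤ 1 + 3 / χ * lC + 3 * ε₁ / χ * l := by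
  have hε₂'' : ε₂ ≤ χ / 16 := by nlinarith
  have ha : χ / 2 ≤ χ - ε₂ := by linarith
  have ha0 : 0 < χ - ε₂ := by linarith
  have hb0 : 0 < χ + ε₂ := by linarith
  have e1 : (N : ℝ) - 1 ≤ (lC + (1 + ε₁) * l) / (χ - ε₂) := by
    rw [le_div_iff₀ ha0]
    linarith
  have e2 : ((1 - ε₁) * l - lC) / (χ + ε₂) ≤ k := by
    rw [div_le_iff₀ hb0]
    linarith
  have e3 : 1 / (χ - ε₂) ≤ 2 / χ := by
    rw [div_le_div_iff₀ ha0 hχ]
    linarith
  have e4 : 1 / (χ + ε₂) ≤ 1 / χ := by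
    apply one_div_le_one_div_of_le hχ
    linarith
  have e5 : (1 + ε₁) / (χ - ε₂) - (1 - ε₁) / (χ + ε₂) ≤ 3 * ε₁ / χ := by
    rw [div_sub_div _ _ ha0.ne' hb0.ne', div_le_div_iff₀ (by positivity) hχ]
    have h3 : (1 + ε₁) * (χ + ε₂) - (χ - ε₂) * (1 - ε₁) = 2 * ε₂ + 2 * ε₁ * χ := by ring
    rw [h3]
    have h4 : ε₂ ^ 2 ≤ χ ^ 2 / 256 := by
      have : ε₂ ^ 2 ≤ (χ / 16) ^ 2 := by gcongr
      calc ε₂ ^ 2 ≤ (χ / 16) ^ 2 := this
        _ = _ := by ring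
    have h5 : ε₁ * ε₂ ^ 2 ≤ ε₁ * (χ ^ 2 / 256) := by gcongr
    have h6 : χ * ε₂ ≤ χ * (ε₁ * χ / 8) := by gcongr
    nlinarith
  have e6 : (N : ℝ) - k ≤ 1 + (lC + (1 + ε₁) * l) / (χ - ε₂) - ((1 - ε₁) * l - lC) / (χ + ε₂) := by
    linarith
  refine e6.trans ?_
  have e7 : 1 + (lC + (1 + ε₁) * l) / (χ - ε₂) - ((1 - ε₁) * l - lC) / (χ + ε₂) =
      1 + (1 / (χ - ε₂) + 1 / (χ + ε₂)) * lC +
        ((1 + ε₁) / (χ - ε₂) - (1 - ε₁) / (χ + ε₂)) * l := by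
    field_simp
    ring
  rw [e7]
  have e8 : 1 / (χ - ε₂) + 1 / (χ + ε₂) ≤ 3 / χ := by
    have : 3 / χ = 2 / χ + 1 / χ := by ring
    rw [this]
    exact add_le_add e3 e4
  gcongr

/-- superattracting parameters belong to the locus -/
theorem bd_of_centre {d n : ℕ} (hd : 2 ≤ d) (hn : 1 ≤ n) {c : ℂ} (h : P d n c = 0) :
    ∀ j, ‖P d j c‖ ≤ 2 := by
  intro j
  by_contra hcon
  rw [not_le] at hcon
  have h1 := Pool.Agent.H712R2.tendsto_of_gt hd hcon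
  have h2 : ∀ i : ℕ, P d (n * i) c = 0 := by
    intro i
    have h3 : Function.IsPeriodicPt (f d c) n 0 := h
    exact h3.mul_const i
  have h3 : Tendsto (fun i : ℕ => n * i) atTop atTop :=
    tendsto_id.const_mul_atTop' (by omega)
  have h4 := h1.comp h3
  have h5 := tendsto_norm_cobounded_atTop.comp h4
  have h6 := (h5.eventually_gt_atTop 0).exists
  obtain ⟨i, hi⟩ := h6
  simp only [Function.comp_apply] at hi
  rw [h2 i, norm_zero] at hi
  exact lt_irrefl _ hi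

/-- the radii -/
theorem radii {d : ℕ} (hd : 2 ≤ d) {r l G Ca Lm A₀ μ ρ η : ℝ} (hr0 : 0 < r)
    (hrl : r = Real.exp (-l)) (hl : 0 < l) (hG : G = 2 * d * Real.exp l)
    (hCa : 1 ≤ Ca) (hLm : 1 ≤ Lm) (hA₀ : A₀ = 3 * Ca * G * Lm) (hμ : μ = (((d - 1 : ℕ) : ℝ))⁻¹)
    (hρ : ρ = (1 / (2 * d * A₀)) ^ μ) (hη : η = ρ / (2 * A₀)) :
    1 ≤ G ∧ 1 ≤ A₀ ∧ 0 < ρ ∧ ρ ≤ 1 ∧ ρ ^ (d - 1) = 1 / (2 * d * A₀) ∧ ρ ^ d = ρ / (2 * d * A₀) ∧
      0 < η ∧ η ≤ r / 12 ∧ ρ ^ d ≤ r / 2 ∧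
      (2 * G * ρ ^ d + 2 * Ca * G * η + η) * Lm ≤ 1 ∧ 2 * G * Lm ≤ A₀ ∧
      (2 * Ca * G + 1) * Lm ≤ A₀ := by
  have hdR : (2 : ℝ) ≤ d := by exact_mod_cast hd
  have hel : 1 ≤ Real.exp l := Real.one_le_exp hl.le
  have hG1 : 1 ≤ G := by rw [hG]; nlinarith
  have hG0 : 0 < G := by linarith
  have hCa0 : 0 < Ca := by linarith
  have hLm0 : 0 < Lm := by linarith
  have hA₀0 : 0 < A₀ := by rw [hA₀]; positivity
  have hX0 : 0 < 1 / (2 * d * A₀) := by positivity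
  have hρ0 : 0 < ρ := by rw [hρ]; exact Real.rpow_pos_of_pos hX0 _
  have hρp : ρ ^ (d - 1) = 1 / (2 * d * A₀) := by
    rw [hρ, hμ]
    exact Real.rpow_inv_natCast_pow hX0.le (by omega)
  have hA₀1 : 1 ≤ A₀ := by
    have h1 : 1 ≤ 3 * Ca := by linarith
    have h2 : 1 ≤ 3 * Ca * G := one_le_mul_of_one_le_of_one_le h1 hG1
    rw [hA₀]
    exact one_le_mul_of_one_le_of_one_le h2 hLm
  have hμ0 : 0 ≤ μ := by rw [hμ]; positivity
  have hρ1 : ρ ≤ 1 := by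
    rw [hρ]
    apply Real.rpow_le_one hX0.le _ hμ0
    rw [div_le_one (by positivity)]
    nlinarith
  have hρd : ρ ^ d = ρ / (2 * d * A₀) := by
    have h1 : ρ ^ d = ρ * ρ ^ (d - 1) := by
      rw [← pow_succ']
      congr 1
      omega
    rw [h1, hρp]
    ring
  have hη0 : 0 < η := by rw [hη]; positivity
  have hrA : 1 / A₀ ≤ r / 6 := by
    rw [div_le_iff₀ hA₀0]
    have h1 : r * A₀ = 3 * Ca * (2 * d) * Lm := by
      rw [hA₀, hG]
      calc r * (3 * Ca * (2 * d * Real.exp l) * Lm)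
          = 3 * Ca * (2 * d) * Lm * (r * Real.exp l) := by ring
        _ = _ := by rw [hrl, ← Real.exp_add]; simp
    have h2 : 6 ≤ 3 * Ca * (2 * d) * Lm := by
      have h3 : 6 ≤ 3 * Ca * (2 * d) := by nlinarith
      nlinarith
    linarith
  have hη1 : η ≤ r / 12 := by
    calc η = ρ * (1 / A₀) / 2 := by rw [hη]; field_simp
      _ ≤ 1 * (r / 6) / 2 := by gcongr
      _ = _ := by ring
  have hρd1 : ρ ^ d ≤ r / 2 := by
    rw [hρd]
    calc ρ / (2 * d * A₀) = ρ * (1 / A₀) / (2 * d) := by field_simp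
      _ ≤ 1 * (r / 6) / (2 * 2) := by gcongr
      _ ≤ _ := by linarith
  refine ⟨hG1, hA₀1, hρ0, hρ1, hρp, hρd, hη0, hη1, hρd1, ?_, ?_, ?_⟩
  · rw [hρd, hη]
    have h1 : (2 * G * (ρ / (2 * d * A₀)) + 2 * Ca * G * (ρ / (2 * A₀)) + ρ / (2 * A₀)) * Lm =
        ρ * (1 / (3 * d * Ca) + 1 / 3 + 1 / (6 * Ca * G)) := by
      rw [hA₀]
      field_simp
      ring
    rw [h1]
    have h2 : 1 / (3 * d * Ca) ≤ 1 / 3 := by
      apply one_div_le_one_div_of_le (by norm_num)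
      nlinarith
    have h3 : 1 / (6 * Ca * G) ≤ 1 / 6 := by
      apply one_div_le_one_div_of_le (by norm_num)
      nlinarith
    have h4 : 0 ≤ 1 / (3 * d * Ca) + 1 / 3 + 1 / (6 * Ca * G) := by positivity
    nlinarith
  · rw [hA₀]
    gcongr ?_ * _ * _
    linarith
  · rw [hA₀]
    gcongr ?_ * _
    nlinarith

/-- the size of the disc -/
theorem size_log {d : ℕ} (hd : 2 ≤ d) {m : ℕ} {r l G Ca L C₃ ε₃ ε c₅ A₀ μ ρ η : ℝ} (hr0 : 0 < r)
    (hrl : Real.log r = -l) (hl : 0 < l) (hε : 0 < ε) (hG : G = 2 * d * Real.exp l)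
    (hCa : 1 ≤ Ca) (hL : 1 < L) (hA₀ : A₀ = 3 * Ca * G * L ^ m)
    (hμ : μ = (((d - 1 : ℕ) : ℝ))⁻¹)
    (hρ : ρ = (1 / (2 * d * A₀)) ^ μ) (hη : η = ρ / (2 * A₀)) (hε₃ : ε₃ = ε / (4 * Real.log L))
    (hmle : (m : ℝ) ≤ C₃ + ε₃ * l)
    (hc₅ : c₅ = Real.log (12 * d ^ 2 * Ca) + C₃ * Real.log L)
    (t4 : d / (d - 1) * c₅ < ε / 2 * l) :
    r ^ ((d : ℝ) / ((d : ℝ) - 1) + ε) ≤ η := by
  have hdR : (2 : ℝ) ≤ d := by exact_mod_cast hd
  have hd1 : 0 < (d : ℝ) - 1 := by linarith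
  have hG0 : 0 < G := by rw [hG]; positivity
  have hL0 : 0 < L := by linarith
  have hlL : 0 < Real.log L := Real.log_pos hL
  have hCa0 : 0 < Ca := by linarith
  have hA₀0 : 0 < A₀ := by rw [hA₀]; positivity
  have hX0 : 0 < 1 / (2 * d * A₀) := by positivity
  have hρ0 : 0 < ρ := by rw [hρ]; exact Real.rpow_pos_of_pos hX0 _
  have hη0 : 0 < η := by rw [hη]; positivity
  have hlogA : Real.log (2 * d * A₀) ≤ c₅ + (1 + ε / 4) * l := by
    have h1 : 2 * d * A₀ = (12 * d ^ 2 * Ca) * Real.exp l * L ^ m := by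
      rw [hA₀, hG]
      ring
    rw [h1, Real.log_mul (by positivity) (by positivity), Real.log_mul (by positivity)
      (by positivity), Real.log_exp, Real.log_pow]
    have h2 : (m : ℝ) * Real.log L ≤ (C₃ + ε₃ * l) * Real.log L := by gcongr
    have h3 : ε₃ * Real.log L = ε / 4 := by
      rw [hε₃]
      field_simp
    have h4 : (C₃ + ε₃ * l) * Real.log L = C₃ * Real.log L + (ε₃ * Real.log L) * l := by ring
    rw [hc₅]
    rw [h4, h3] at h2
    linarith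
  have hη2 : -(d / (d - 1) * Real.log (2 * d * A₀)) ≤ Real.log η := by
    rw [hη, Real.log_div hρ0.ne' (by positivity), hρ, Real.log_rpow hX0, one_div,
      Real.log_inv]
    have h1 : Real.log (2 * A₀) ≤ Real.log (2 * d * A₀) := by
      apply Real.log_le_log (by positivity)
      nlinarith
    have h2 : (d : ℝ) / (d - 1) = 1 + μ := by
      rw [hμ, Nat.cast_sub (by omega), Nat.cast_one]
      field_simp
      ring
    rw [h2]
    linarith
  have hdd : (d : ℝ) / (d - 1) ≤ 2 := by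
    rw [div_le_iff₀ hd1]
    linarith
  have hdd0 : 0 < (d : ℝ) / (d - 1) := by positivity
  have h5 : -((d / (d - 1) + ε) * l) ≤ Real.log η := by
    have h6 : (d : ℝ) / (d - 1) * Real.log (2 * d * A₀) ≤
        d / (d - 1) * (c₅ + (1 + ε / 4) * l) := by gcongr
    have h7 : (d : ℝ) / (d - 1) * (c₅ + (1 + ε / 4) * l) =
        d / (d - 1) * c₅ + d / (d - 1) * l + d / (d - 1) * (ε / 4 * l) := by ring
    have h8 : (d : ℝ) / (d - 1) * (ε / 4 * l) ≤ 2 * (ε / 4 * l) := by gcongr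
    linarith
  rw [← Real.exp_log hη0, Real.rpow_def_of_pos hr0]
  apply Real.exp_le_exp.mpr
  rw [hrl]
  linarith

/-- **Hyperbolic discs near parameters with a positive Lyapunov exponent.** -/
theorem lower (hSCH : S_SCH) (hATT : S_ATT) (hTWO : S_TWO) (hLYA : S_LYA) (hPA : S_PA) {d : ℕ}
    (hd : 2 ≤ d) {χ : ℝ} {c₀ : ℂ} (h : Lyap d χ c₀) {ε : ℝ} (hε : 0 < ε) :
    ∃ r₀ : ℝ, 0 < r₀ ∧ r₀ < 1 ∧ ∀ r : ℝ, 0 < r → r ≤ r₀ → ∃ (c' : ℂ) (η : ℝ), 0 < η ∧
      r ^ ((d : ℝ) / ((d : ℝ) - 1) + ε) ≤ η ∧ ball c' η ⊆ ball c₀ r ∧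
      ∀ c ∈ ball c' η, c ∈ N62a1eb23.multibrotSet d ∧
        ∃ (m : ℕ) (z : ℂ), N62a1eb23.IsAttractingCycle (f d c) m z := by
  have hdR : (2 : ℝ) ≤ d := by exact_mod_cast hd
  have hd1 : 0 < (d : ℝ) - 1 := by linarith
  have hd0 : 0 < (d : ℝ) := by linarith
  obtain ⟨⟨C₁, lam, hc⟩, hlya⟩ := hLYA d χ c₀ hd h
  have hχ : 0 < χ := h.1
  set L : ℝ := d * 3 ^ (d - 1) + 1 with hL
  have hL3 : (1 : ℝ) ≤ 3 ^ (d - 1) := one_le_pow₀ (by norm_num)
  have hL2 : 2 ≤ L := by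
    rw [hL]
    nlinarith
  have hL0 : 0 < L := by linarith
  have hlL : 0 < Real.log L := Real.log_pos (by linarith)
  set ε₃ : ℝ := ε / (4 * Real.log L) with hε₃
  have hε₃0 : 0 < ε₃ := by positivity
  set ε₁ : ℝ := min (1 / 2) (ε₃ * χ / 3) with hε₁
  have hε₁0 : 0 < ε₁ := lt_min (by norm_num) (by positivity)
  have hε₁h : ε₁ ≤ 1 / 2 := min_le_left _ _
  have hε₁3 : 3 * ε₁ / χ ≤ ε₃ := by
    have h1 : ε₁ ≤ ε₃ * χ / 3 := min_le_right _ _
    rw [div_le_iff₀ hχ]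
    linarith
  set ε₂ : ℝ := ε₁ * χ / 8 with hε₂
  have hε₂0 : 0 < ε₂ := by positivity
  have hε₂χ : ε₂ ≤ χ / 2 := by
    rw [hε₂]
    nlinarith
  obtain ⟨C₂, hC₂1, hC₂⟩ := hlya ε₂ hε₂0
  have hC₂0 : 0 < C₂ := by linarith
  have hlC₂ : 0 ≤ Real.log C₂ := Real.log_nonneg hC₂1
  set θ : ℝ := Real.exp ε₂ with hθ
  have hθ1 : 1 < θ := Real.one_lt_exp_iff.mpr hε₂0
  obtain ⟨B, Ca, hPC⟩ := hPA d C₁ lam θ hd hc.C1 hc.lam1 hθ1
  have hCa1 := hPC.Ca1
  have hCa0 : 0 < Ca := by linarith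
  have hB0 : 0 < B := by linarith [hPC.CaB]
  obtain ⟨CS, rS, J, hCS, hrS, hsch⟩ := hSCH d C₁ lam c₀ hc
  set C₃ : ℝ := 1 + 3 / χ * Real.log C₂ with hC₃
  have hC₃0 : 0 ≤ C₃ := by positivity
  set c₅ : ℝ := Real.log (12 * d ^ 2 * Ca) + C₃ * Real.log L with hc₅
  -- the threshold
  have hlin : ∀ (a b : ℝ), 0 < a → ∀ᶠ l : ℝ in atTop, b < a * l := by
    intro a b ha
    exact (tendsto_id.const_mul_atTop ha).eventually_gt_atTop b
  have hev : ∀ᶠ l : ℝ in atTop, Real.log (B * C₂) + ε₁ / 2 * Real.log C₂ < ε₁ / 2 * l ∧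
      Real.log (4 * CS) < ε₁ * l ∧ J * Real.log (2 * d) < 1 * l ∧
      d / (d - 1) * c₅ < ε / 2 * l ∧ 0 < 1 * l ∧ -Real.log rS < 1 * l :=
    (hlin _ _ (by positivity)).and ((hlin _ _ hε₁0).and ((hlin _ _ one_pos).and
      ((hlin _ _ (by positivity)).and ((hlin _ _ one_pos).and (hlin _ _ one_pos)))))
  obtain ⟨l₀, hl₀⟩ := eventually_atTop.mp hev
  refine ⟨Real.exp (-(max l₀ 1)), Real.exp_pos _, ?_, ?_⟩
  · rw [Real.exp_lt_one_iff]
    have := le_max_right l₀ 1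
    linarith
  intro r hr0 hrr
  set l : ℝ := -Real.log r with hl
  have hrl : r = Real.exp (-l) := by rw [hl, neg_neg, Real.exp_log hr0]
  have hll₀ : l₀ ≤ l := by
    have h1 : Real.log r ≤ -(max l₀ 1) := by
      rw [← Real.log_exp (-(max l₀ 1))]
      exact Real.log_le_log hr0 hrr
    have := le_max_left l₀ 1
    linarith
  obtain ⟨t1, t2, t3, t4, t5, t6⟩ := hl₀ l hll₀
  have hl0 : 0 < l := by linarith
  have hrs : r ≤ rS := by
    rw [← Real.exp_log hrS, hrl]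
    apply Real.exp_le_exp.mpr
    linarith
  have hr1 : r ≤ 1 := by
    rw [hrl]
    apply Real.exp_le_one_iff.mpr
    linarith
  -- unboundedness of the derivatives
  have hunb : ∀ X : ℝ, ∃ n, X ≤ Pd d c₀ n := by
    intro X
    obtain ⟨n, hn⟩ := pow_unbounded_of_one_lt (C₁ * X) hc.lam1
    refine ⟨n, ?_⟩
    have h1 := hc.exp n
    have h2 : C₁ * X < C₁ * Pd d c₀ n := lt_of_lt_of_le hn h1
    have h3 : 0 < C₁ := by linarith [hc.C1]
    exact (lt_of_mul_lt_mul_left h2 h3.le).le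
  obtain ⟨k, hk1, hk2⟩ := first_ge (hunb (Real.exp ((1 - ε₁) * l)))
  obtain ⟨N, hN1, hN2⟩ := first_ge (hunb (Real.exp ((1 + ε₁) * l)))
  have hkN : k ≤ N := by
    by_contra hcon
    rw [not_le] at hcon
    have h1 := hk2 N hcon
    have h2 : Real.exp ((1 - ε₁) * l) ≤ Real.exp ((1 + ε₁) * l) := by
      apply Real.exp_le_exp.mpr
      nlinarith
    linarith
  have hk0 : 0 < k := by
    by_contra hcon
    have h1 : k = 0 := by omega
    rw [h1, Pd_zero] at hk1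
    have h2 : 1 < Real.exp ((1 - ε₁) * l) := by
      rw [Real.one_lt_exp_iff]
      apply mul_pos _ hl0
      linarith
    linarith
  -- the upper bound of the derivatives up to `k`
  set G : ℝ := 2 * d * Real.exp l with hG
  have hel : 1 ≤ Real.exp l := Real.one_le_exp hl0.le
  have hG1 : 1 ≤ G := by rw [hG]; nlinarith
  have hG0 : 0 < G := by linarith
  have hPG' : ∀ j < k, Pd d c₀ j ≤ Real.exp l := by
    intro j hj
    refine (hk2 j hj).le.trans ?_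
    apply Real.exp_le_exp.mpr
    nlinarith
  have hPG : ∀ j ≤ k, Pd d c₀ j ≤ G := by
    intro j hj
    rcases hj.lt_or_eq with h1 | h1
    · have h2 := hPG' j h1
      rw [hG]
      nlinarith
    · obtain ⟨i, hi⟩ : ∃ i, k = i + 1 := ⟨k - 1, by omega⟩
      rw [h1, hi, Pd_succ]
      have h2 := hPG' i (by omega)
      have h3 := hc.bd' i
      have h4 := (hc.Pd_pos i).le
      calc d * ‖zz d c₀ i‖ ^ (d - 1) * Pd d c₀ i ≤ d * 2 * Real.exp l := by gcongr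
        _ = G := by rw [hG]; ring
  -- the passage
  have hpass : ∀ j < k, B * θ ^ j * r * Pd d c₀ j ≤ ‖zz d c₀ j‖ := by
    intro j hj
    obtain ⟨g1, -, g3⟩ := hC₂ j
    have h1 := hk2 j hj
    have h2 : (χ - ε₂) * j ≤ Real.log C₂ + (1 - ε₁) * l := by
      have h3 : Real.exp ((χ - ε₂) * j) ≤ Real.exp (Real.log C₂ + (1 - ε₁) * l) := by
        rw [Real.exp_add, Real.exp_log hC₂0]
        exact g1.trans (by gcongr)
      exact Real.exp_le_exp.mp h3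
    have h4 : χ / 2 * j ≤ Real.log C₂ + l := by
      have h5 : χ / 2 * j ≤ (χ - ε₂) * j := by
        gcongr
        linarith
      nlinarith
    have h6 : 2 * ε₂ * j ≤ ε₁ / 2 * (Real.log C₂ + l) := by
      calc 2 * ε₂ * j = ε₁ / 2 * (χ / 2 * j) := by rw [hε₂]; ring
        _ ≤ _ := by gcongr
    have h7 : B * C₂ * Real.exp (2 * ε₂ * j) ≤ Real.exp (ε₁ * l) := by
      calc B * C₂ * Real.exp (2 * ε₂ * j) = Real.exp (Real.log (B * C₂) + 2 * ε₂ * j) := by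
            rw [Real.exp_add, Real.exp_log (by positivity)]
        _ ≤ _ := by
            apply Real.exp_le_exp.mpr
            linarith
    have h8 : θ ^ j = Real.exp (ε₂ * j) := by
      rw [hθ, ← Real.exp_nat_mul, mul_comm]
    have h9 : B * θ ^ j * r * Pd d c₀ j * (C₂ * Real.exp (ε₂ * j)) ≤ 1 := by
      calc B * θ ^ j * r * Pd d c₀ j * (C₂ * Real.exp (ε₂ * j))
          ≤ B * θ ^ j * r * Real.exp ((1 - ε₁) * l) * (C₂ * Real.exp (ε₂ * j)) := by gcongr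
        _ = (B * C₂ * (Real.exp (ε₂ * j) * Real.exp (ε₂ * j))) *
            (Real.exp (-l) * Real.exp ((1 - ε₁) * l)) := by
            rw [h8, hrl]
            ring
        _ = (B * C₂ * Real.exp (2 * ε₂ * j)) * Real.exp (-(ε₁ * l)) := by
            rw [← Real.exp_add, ← Real.exp_add]
            congr 2
            · congr 1
              ring
            · ring
        _ ≤ Real.exp (ε₁ * l) * Real.exp (-(ε₁ * l)) := by gcongr
        _ = 1 := by rw [← Real.exp_add]; simp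
    have h10 : 0 < C₂ * Real.exp (ε₂ * j) := by positivity
    refine le_of_mul_le_mul_right ?_ h10
    linarith
  -- the number of additional steps
  set m : ℕ := N - k with hm
  have hkm : k + m = N := by omega
  have hmle : (m : ℝ) ≤ C₃ + ε₃ * l := by
    have h1 : (χ - ε₂) * ((N : ℝ) - 1) ≤ Real.log C₂ + (1 + ε₁) * l := by
      obtain ⟨i, hi⟩ : ∃ i, N = i + 1 := ⟨N - 1, by omega⟩
      have h2 := hN2 i (by omega)
      obtain ⟨g1, -, -⟩ := hC₂ i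
      have h3 : Real.exp ((χ - ε₂) * i) ≤ Real.exp (Real.log C₂ + (1 + ε₁) * l) := by
        rw [Real.exp_add, Real.exp_log hC₂0]
        exact g1.trans (by gcongr)
      have h4 := Real.exp_le_exp.mp h3
      rw [hi]
      push_cast
      rw [add_sub_cancel_right]
      exact h4
    have h2 : (1 - ε₁) * l - Real.log C₂ ≤ (χ + ε₂) * k := by
      obtain ⟨-, g2, -⟩ := hC₂ k
      have h3 : Real.exp ((1 - ε₁) * l) ≤ Real.exp (Real.log C₂ + (χ + ε₂) * k) := by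
        rw [Real.exp_add, Real.exp_log hC₂0]
        exact hk1.trans g2
      have h4 := Real.exp_le_exp.mp h3
      linarith
    have h3 := steps hχ hε₁0 hε₁h hε₂0 le_rfl hl0.le hlC₂ h1 h2
    have h4 : (m : ℝ) = (N : ℝ) - k := by
      rw [hm, Nat.cast_sub hkN]
    rw [h4]
    refine h3.trans ?_
    rw [hC₃]
    gcongr
  have hLm1 : 1 ≤ L ^ m := one_le_pow₀ (by linarith)
  have hLm0 : 0 < L ^ m := by linarith
  -- the superattracting parameter
  obtain ⟨n, hn1, hn2, c', hc', hPn⟩ := hsch (r / 4) (by positivity) (by linarith) N (by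
    by_contra hcon
    rw [not_le] at hcon
    have h1 : Pd d c₀ N ≤ (2 * d) ^ J := by
      refine (hc.Pd_le N).trans ?_
      apply pow_le_pow_right₀ _ hcon.le
      linarith
    have h2 : Real.exp l ≤ Pd d c₀ N := by
      refine le_trans ?_ hN1
      apply Real.exp_le_exp.mpr
      nlinarith
    have h3 : ((2 * d : ℝ)) ^ J < Real.exp l := by
      rw [← Real.exp_log (by positivity : (0 : ℝ) < (2 * d) ^ J), Real.log_pow]
      apply Real.exp_lt_exp.mpr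
      linarith
    linarith) (by
    have h1 : 4 * CS < Real.exp (ε₁ * l) := by
      rw [← Real.exp_log (by positivity : (0 : ℝ) < 4 * CS)]
      exact Real.exp_lt_exp.mpr t2
    have h2 : Real.exp (ε₁ * l) ≤ r * Pd d c₀ N := by
      calc Real.exp (ε₁ * l) = Real.exp (-l) * Real.exp ((1 + ε₁) * l) := by
            rw [← Real.exp_add]
            congr 1
            ring
        _ ≤ _ := by
            rw [← hrl]
            gcongr
    linarith)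
  rw [mem_ball, dist_eq_norm] at hc'
  have hbd : ∀ j, ‖P d j c'‖ ≤ 2 :=
    bd_of_centre hd hn1 hPn
  -- the radii
  set A₀ : ℝ := 3 * Ca * G * L ^ m with hA₀
  set μ : ℝ := (((d - 1 : ℕ) : ℝ))⁻¹ with hμ
  set ρ : ℝ := (1 / (2 * d * A₀)) ^ μ with hρ
  set η : ℝ := ρ / (2 * A₀) with hη
  obtain ⟨-, hA₀1, hρ0, hρ1, hρp, hρd, hη0, hη1, hρd1, hsm, hA1, hA2⟩ :=
    radii hd hr0 hrl hl0 hG hCa1 hLm1 hA₀ hμ hρ hη
  have hA₀0 : 0 < A₀ := by linarith
  have htwo := hTWO d C₁ lam θ B Ca hd hPC c₀ hc r G k m hr0 hr1 hpass hPG c' hc'.le hbd η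
    (ρ ^ d) hη0 (by linarith) (by positivity) hρd1 hsm
  rw [← hL] at htwo
  refine ⟨c', η, hη0, ?_, ?_, ?_⟩
  · exact size_log hd hr0 (by rw [hl, neg_neg]) hl0 hε hG hCa1 (by linarith) hA₀ hμ hρ hη hε₃ hmle
      hc₅ t4
  · intro x hx
    rw [mem_ball, dist_eq_norm] at hx ⊢
    calc ‖x - c₀‖ = ‖(x - c') + (c' - c₀)‖ := by congr 1; ring
      _ ≤ ‖x - c'‖ + ‖c' - c₀‖ := norm_add_le _ _
      _ < r := by linarith
  · refine hATT d n c' η ρ A₀ A₀ hd hn1 hPn hη0 hρ0 ?_ ?_ ?_ ?_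
    · intro c hcη
      obtain ⟨-, h2⟩ := htwo c hcη (n - 1) (by omega)
      rw [Nat.sub_add_cancel hn1] at h2
      exact h2.trans hA2
    · intro c hcη x hx
      obtain ⟨h1, -⟩ := htwo c hcη (n - 1) (by omega)
      exact (h1 x hx).trans hA1
    · rw [hη]
      apply le_of_eq
      field_simp
    · rw [hρp]
      apply le_of_eq
      field_simp

end Pool.Agent.Y298.CA
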