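import Mathlib
import Pool.Agent.Y298.CA.All
import Pool.Agent.Y298.CA.Low

/-!
# The exact scaling of the connectedness locus at parameters with a positive Lyapunov exponent
-/

set_option autoImplicit false

open Set Filter Metric MeasureTheory Topology

namespace Pool.Agent.Y298.CA

open Pool.Agent.TH279.MD Pool.Agent.Y298.SH Pool.Agent.Y298.SH.CD

/-- powers of small radii -/
theorem ev_const {C a : ℝ} (ha : 0 < a) : ∀ᶠ r : ℝ in 𝓝[>] 0, C * r ^ a ≤ 1 := by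
  have h1 : Tendsto (fun r : ℝ => C * r ^ a) (𝓝[>] 0) (𝓝 (C * (0 : ℝ) ^ a)) := by
    apply Tendsto.const_mul
    exact (Real.continuousAt_rpow_const 0 a (Or.inr ha.le)).tendsto.mono_left nhdsWithin_le_nhds
  rw [Real.zero_rpow ha.ne', mul_zero] at h1
  exact h1.eventually (ge_mem_nhds zero_lt_one)

/-- exponents as limits -/
theorem lim_of {F : ℝ → ℝ} {a : ℝ}
    (h1 : ∀ ε : ℝ, 0 < ε → ∀ᶠ r : ℝ in 𝓝[>] 0, r ^ (a + ε) ≤ F r)
    (h2 : ∀ ε : ℝ, 0 < ε → ∀ᶠ r : ℝ in 𝓝[>] 0, F r ≤ r ^ (a - ε)) :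
    Tendsto (fun r => Real.log (F r) / Real.log r) (𝓝[>] 0) (𝓝 a) := by
  rw [Metric.tendsto_nhds]
  intro ε hε
  have h3 : ∀ᶠ r : ℝ in 𝓝[>] 0, r < 1 :=
    mem_nhdsWithin_of_mem_nhds (gt_mem_nhds (by norm_num : (0 : ℝ) < 1))
  filter_upwards [h1 (ε / 2) (by positivity), h2 (ε / 2) (by positivity), h3,
    self_mem_nhdsWithin] with r hr1 hr2 hr3 hr0
  have hr0' : 0 < r := hr0
  have hl : Real.log r < 0 := Real.log_neg hr0' hr3
  have hp : 0 < r ^ (a + ε / 2) := Real.rpow_pos_of_pos hr0' _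
  have hF : 0 < F r := hp.trans_le hr1
  have e1 : (a + ε / 2) * Real.log r ≤ Real.log (F r) := by
    rw [← Real.log_rpow hr0']
    exact Real.log_le_log hp hr1
  have e2 : Real.log (F r) ≤ (a - ε / 2) * Real.log r := by
    rw [← Real.log_rpow hr0']
    exact Real.log_le_log hF hr2
  rw [Real.dist_eq, abs_lt]
  constructor
  · have h4 : a - ε / 2 ≤ Real.log (F r) / Real.log r := by
      rw [le_div_iff_of_neg hl]
      exact e2
    linarith
  · have h4 : Real.log (F r) / Real.log r ≤ a + ε / 2 := by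
      rw [div_le_iff_of_neg hl]
      exact e1
    linarith

/-- The inradius of a set. -/
noncomputable def inradius (S : Set ℂ) : ℝ := sSup {ρ : ℝ | 0 ≤ ρ ∧ ∃ c : ℂ, ball c ρ ⊆ S}

theorem inradius_bdd {S : Set ℂ} {c₀ : ℂ} {R : ℝ} (hS : S ⊆ ball c₀ R) :
    BddAbove {ρ : ℝ | 0 ≤ ρ ∧ ∃ c : ℂ, ball c ρ ⊆ S} := by
  refine ⟨|R|, ?_⟩
  rintro x ⟨hx0, c', hx⟩
  rcases hx0.eq_or_lt with h0 | h0
  · rw [← h0]
    exact abs_nonneg R
  · have hR : 0 < R := by
      have h1 := hS (hx (mem_ball_self h0))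
      rw [mem_ball] at h1
      exact dist_nonneg.trans_lt h1
    have h1 : volume (ball c' x) ≤ volume (ball c₀ R) := measure_mono (hx.trans hS)
    rw [vol_b' _ hx0, vol_b' _ hR.le, ENNReal.ofReal_le_ofReal_iff (by positivity)] at h1
    have h2 : x ^ 2 ≤ R ^ 2 := le_of_mul_le_mul_left h1 Real.pi_pos
    rw [abs_of_pos hR]
    exact le_of_pow_le_pow_left₀ (by norm_num) hR.le h2

theorem le_inradius {S : Set ℂ} {c₀ : ℂ} {R : ℝ} (hS : S ⊆ ball c₀ R) {c : ℂ} {ρ : ℝ}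
    (hρ : 0 ≤ ρ) (h : ball c ρ ⊆ S) : ρ ≤ inradius S :=
  le_csSup (inradius_bdd hS) ⟨hρ, c, h⟩

theorem inradius_le {S : Set ℂ} {B : ℝ} (hB : 0 ≤ B)
    (h : ∀ (c : ℂ) (ρ : ℝ), 0 < ρ → ball c ρ ⊆ S → ρ ≤ B) : inradius S ≤ B := by
  apply csSup_le
  · exact ⟨0, le_rfl, 0, by simp⟩
  · rintro x ⟨hx0, c, hx⟩
    rcases hx0.eq_or_lt with h0 | h0
    · rw [← h0]
      exact hB
    · exact h c x h0 hx

/-- The hyperbolic parameters of the connectedness locus. -/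
def HH (d : ℕ) : Set ℂ := {c | c ∈ N62a1eb23.multibrotSet d ∧
  ∃ (m : ℕ) (z : ℂ), N62a1eb23.IsAttractingCycle (fun z : ℂ => z ^ d + c) m z}

/-- The scaling at a parameter. -/
structure Scal (d : ℕ) (c₀ : ℂ) : Prop where
  areaM : Tendsto (fun r : ℝ => Real.log (volume (N62a1eb23.multibrotSet d ∩ ball c₀ r)).toReal /
    Real.log r) (𝓝[>] 0) (𝓝 (2 * d / ((d : ℝ) - 1)))
  areaH : Tendsto (fun r : ℝ => Real.log (volume (HH d ∩ ball c₀ r)).toReal /
    Real.log r) (𝓝[>] 0) (𝓝 (2 * d / ((d : ℝ) - 1)))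
  inM : Tendsto (fun r : ℝ => Real.log (inradius (N62a1eb23.multibrotSet d ∩ ball c₀ r)) /
    Real.log r) (𝓝[>] 0) (𝓝 (d / ((d : ℝ) - 1)))
  inH : Tendsto (fun r : ℝ => Real.log (inradius (HH d ∩ ball c₀ r)) /
    Real.log r) (𝓝[>] 0) (𝓝 (d / ((d : ℝ) - 1)))
  dens : ∀ σ : ℝ, 0 ≤ σ → σ < d / ((d : ℝ) - 1) → ∃ C : ℝ, 0 < C ∧
    ∀ c ∈ N62a1eb23.multibrotSet d, c ≠ c₀ →
      (∃ c' : ℂ, ‖c' - c‖ ≤ C * ‖c - c₀‖ ^ σ ∧ ∃ p : ℕ, 1 ≤ p ∧
        (fun z : ℂ => z ^ d + c')^[p] 0 = 0 ∧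
        N62a1eb23.IsAttractingCycle (fun z : ℂ => z ^ d + c') p 0) ∧
      (∃ c' : ℂ, ‖c' - c‖ ≤ C * ‖c - c₀‖ ^ σ ∧ c' ∉ N62a1eb23.multibrotSet d)

/-- the recurrence condition of every order -/
theorem rec_of_lya (hLYA : S_LYA) {d : ℕ} (hd : 2 ≤ d) {χ : ℝ} {c₀ : ℂ} (h : Lyap d χ c₀)
    {b : ℝ} (hb : 0 < b) : ∃ C₂ : ℝ, 0 < C₂ ∧ Rec d C₂ b c₀ := by
  obtain ⟨-, hlya⟩ := hLYA d χ c₀ hd h
  have hχ : 0 < χ := h.1
  obtain ⟨⟨C₁, lam, hc⟩, -⟩ := hLYA d χ c₀ hd h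
  set ε : ℝ := min (χ / 2) (b * χ / 2) with hε
  have hε0 : 0 < ε := lt_min (by positivity) (by positivity)
  have hε1 : ε ≤ χ / 2 := min_le_left _ _
  have hε2 : ε ≤ b * χ / 2 := min_le_right _ _
  obtain ⟨C, hC, H⟩ := hlya ε hε0
  have hC0 : 0 < C := by linarith
  refine ⟨C * C ^ b, by positivity, fun n => ?_⟩
  obtain ⟨h1, -, h3⟩ := H n
  have hP := hc.Pd_pos n
  have h4 : Real.exp (ε * n) ≤ C ^ b * Pd d c₀ n ^ b := by
    calc Real.exp (ε * n) ≤ Real.exp ((χ - ε) * n * b) := by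
          apply Real.exp_le_exp.mpr
          have : ε ≤ (χ - ε) * b := by nlinarith
          calc ε * n ≤ ((χ - ε) * b) * n := by gcongr
            _ = _ := by ring
      _ = Real.exp ((χ - ε) * n) ^ b := by rw [← Real.exp_mul]
      _ ≤ (C * Pd d c₀ n) ^ b := Real.rpow_le_rpow (Real.exp_pos _).le h1 hb.le
      _ = _ := Real.mul_rpow hC0.le hP.le
  calc 1 ≤ C * Real.exp (ε * n) * ‖zz d c₀ n‖ := h3
    _ ≤ C * (C ^ b * Pd d c₀ n ^ b) * ‖zz d c₀ n‖ := by gcongr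
    _ = _ := by ring

/-- **The exact scaling at parameters with a positive Lyapunov exponent.** -/
theorem scaling (hSCH : S_SCH) (hATT : S_ATT) (hTWO : S_TWO) (hLYA : S_LYA) {d : ℕ}
    (hd : 2 ≤ d) {χ : ℝ} {c₀ : ℂ} (h : Lyap d χ c₀) : Scal d c₀ := by
  have hdR : (2 : ℝ) ≤ d := by exact_mod_cast hd
  have hd1 : 0 < (d : ℝ) - 1 := by linarith
  obtain ⟨⟨C₁, lam, hc⟩, -⟩ := hLYA d χ c₀ hd h
  set E : ℝ := (d : ℝ) / ((d : ℝ) - 1) with hE
  have hE0 : 0 < E := by positivity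
  have hE2 : 2 * (d : ℝ) / ((d : ℝ) - 1) = 2 * E := by rw [hE]; ring
  have hmem0 : ∀ᶠ r : ℝ in 𝓝[>] 0, 0 < r := self_mem_nhdsWithin
  have hlt1 : ∀ᶠ r : ℝ in 𝓝[>] 0, r < 1 :=
    mem_nhdsWithin_of_mem_nhds (gt_mem_nhds (by norm_num : (0 : ℝ) < 1))
  have hMfin : ∀ (S : Set ℂ) (r : ℝ), volume (S ∩ ball c₀ r) ≠ ⊤ := fun S r =>
    ne_top_of_le_ne_top measure_ball_lt_top.ne (measure_mono inter_subset_right)
  have hHM : HH d ⊆ N62a1eb23.multibrotSet d := fun c hc => hc.1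
  -- the upper bound of the area
  have hup : ∀ ε : ℝ, 0 < ε → ∀ᶠ r : ℝ in 𝓝[>] 0,
      (volume (N62a1eb23.multibrotSet d ∩ ball c₀ r)).toReal ≤ r ^ (2 * E - ε) := by
    intro ε hε
    set t : ℝ := max 0 (1 - ε / (4 * E)) with ht
    have ht0 : 0 ≤ t := le_max_left _ _
    have ht1 : t < 1 := by
      apply max_lt one_pos
      have : 0 < ε / (4 * E) := by positivity
      linarith
    set b : ℝ := (1 - t) / 2 with hb
    have hb0 : 0 < b := by rw [hb]; linarith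
    have hb1 : t * (1 + b) < 1 := by
      rw [hb]
      nlinarith
    obtain ⟨C₂, hC₂, hrec⟩ := rec_of_lya hLYA hd h hb0
    obtain ⟨C, hC, H⟩ := area_final hd C₁ lam hC₂ hb0.le ht0 hb1
    filter_upwards [hmem0, hlt1, ev_const (C := C) (by positivity : 0 < ε / 2)] with r hr0 hr1 hr2
    have h1 := H c₀ hc hrec r hr0
    have h2 : volume (N62a1eb23.multibrotSet d ∩ ball c₀ r) ≤
        ENNReal.ofReal (C * r ^ (t * (2 * (d : ℝ) / ((d : ℝ) - 1)))) :=
      (measure_mono (inter_subset_inter_right _ ball_subset_closedBall)).trans h1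
    have h3 := ENNReal.toReal_mono ENNReal.ofReal_ne_top h2
    rw [ENNReal.toReal_ofReal (by positivity)] at h3
    refine h3.trans ?_
    have h4 : 2 * E - ε / 2 ≤ t * (2 * (d : ℝ) / ((d : ℝ) - 1)) := by
      rw [hE2]
      have h5 : 1 - ε / (4 * E) ≤ t := le_max_right _ _
      calc 2 * E - ε / 2 = (1 - ε / (4 * E)) * (2 * E) := by field_simp; ring
        _ ≤ t * (2 * E) := by gcongr
    calc C * r ^ (t * (2 * (d : ℝ) / ((d : ℝ) - 1))) ≤ C * r ^ (2 * E - ε / 2) := by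
          gcongr C * ?_
          exact Real.rpow_le_rpow_of_exponent_ge hr0 hr1.le h4
      _ = (C * r ^ (ε / 2)) * r ^ (2 * E - ε) := by
          rw [mul_assoc, ← Real.rpow_add hr0]
          congr 2
          ring
      _ ≤ 1 * r ^ (2 * E - ε) := by gcongr
      _ = _ := one_mul _
  -- the upper bound of the inradius
  have hup2 : ∀ ε : ℝ, 0 < ε → ∀ᶠ r : ℝ in 𝓝[>] 0,
      inradius (N62a1eb23.multibrotSet d ∩ ball c₀ r) ≤ r ^ (E - ε) := by
    intro ε hε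
    set t : ℝ := max 0 (1 - ε / (2 * E)) with ht
    have ht0 : 0 ≤ t := le_max_left _ _
    have ht1 : t < 1 := by
      apply max_lt one_pos
      have : 0 < ε / (2 * E) := by positivity
      linarith
    set b : ℝ := (1 - t) / 2 with hb
    have hb0 : 0 < b := by rw [hb]; linarith
    have hb1 : t * (1 + b) < 1 := by
      rw [hb]
      nlinarith
    obtain ⟨C₂, hC₂, hrec⟩ := rec_of_lya hLYA hd h hb0
    obtain ⟨C, hC, H⟩ := upper_uniform hd C₁ lam hC₂ hb0.le ht0 hb1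
    set σ : ℝ := d * t / ((d : ℝ) - 1) with hσ
    have hσ0 : 0 ≤ σ := by positivity
    have hσE : E - ε / 2 ≤ σ := by
      have h5 : 1 - ε / (2 * E) ≤ t := le_max_right _ _
      calc E - ε / 2 = (1 - ε / (2 * E)) * E := by field_simp
        _ ≤ t * E := by gcongr
        _ = σ := by rw [hσ, hE]; ring
    filter_upwards [hmem0, hlt1, ev_const (C := 2 * C) (by positivity : 0 < ε / 2)] with r hr0 hr1
      hr2
    refine inradius_le (by positivity) fun c ρ hρ hsub => ?_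
    have hcr : ‖c - c₀‖ < r := by
      have := (hsub (mem_ball_self hρ)).2
      rwa [mem_ball, dist_eq_norm] at this
    -- discs centred off `c₀`
    have hoff : ∀ (c : ℂ) (ρ : ℝ), 0 < ρ → ball c ρ ⊆ N62a1eb23.multibrotSet d → c ≠ c₀ →
        ρ ≤ C * ‖c - c₀‖ ^ σ := by
      intro c ρ hρ hsub hcc
      obtain ⟨g1, g2, g3, g4⟩ := line_disc c hρ
      have h3 := (H c₀ hc hrec c (hsub (mem_ball_self hρ)) hcc).2 (fun t : ℂ => c + ρ * t) g1
        (fun t ht => hsub (g2 t ht)) g3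
      rwa [g4] at h3
    have hfin : ρ ≤ 2 * C * r ^ σ := by
      by_cases hcc : c = c₀
      · have h1 : ρ / 2 ≤ C * ‖(c₀ + ((ρ / 2 : ℝ) : ℂ)) - c₀‖ ^ σ := by
          apply hoff _ _ (by positivity)
          · intro x hx
            have h2 : x ∈ ball c ρ := by
              rw [mem_ball, dist_eq_norm] at hx ⊢
              rw [hcc]
              calc ‖x - c₀‖ = ‖(x - (c₀ + ((ρ / 2 : ℝ) : ℂ))) + ((ρ / 2 : ℝ) : ℂ)‖ := by
                    congr 1; ring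
                _ ≤ ‖x - (c₀ + ((ρ / 2 : ℝ) : ℂ))‖ + ‖((ρ / 2 : ℝ) : ℂ)‖ := norm_add_le _ _
                _ < ρ / 2 + ρ / 2 := by
                    rw [Complex.norm_real, Real.norm_of_nonneg (by positivity)]
                    linarith
                _ = ρ := by ring
            exact (hsub h2).1
          · intro h2
            have h3 : ((ρ / 2 : ℝ) : ℂ) = 0 := by
              have := congrArg (fun x => x - c₀) h2
              simpa using this
            rw [Complex.ofReal_eq_zero] at h3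
            linarith
        rw [add_sub_cancel_left, Complex.norm_real, Real.norm_of_nonneg (by positivity)] at h1
        have hρr : ρ / 2 ≤ r := by
          have h2 : c₀ + ((ρ / 2 : ℝ) : ℂ) ∈ ball c ρ := by
            rw [mem_ball, dist_eq_norm, hcc, add_sub_cancel_left, Complex.norm_real,
              Real.norm_of_nonneg (by positivity)]
            linarith
          have h3 := (hsub h2).2
          rw [mem_ball, dist_eq_norm, add_sub_cancel_left, Complex.norm_real,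
            Real.norm_of_nonneg (by positivity)] at h3
          exact h3.le
        have h4 : (ρ / 2) ^ σ ≤ r ^ σ := Real.rpow_le_rpow (by positivity) hρr hσ0
        have h5 : C * (ρ / 2) ^ σ ≤ C * r ^ σ := by gcongr
        linarith
      · have h1 := hoff c ρ hρ (fun x hx => (hsub hx).1) hcc
        have h2 : ‖c - c₀‖ ^ σ ≤ r ^ σ := Real.rpow_le_rpow (norm_nonneg _) hcr.le hσ0
        have h3 : C * ‖c - c₀‖ ^ σ ≤ C * r ^ σ := by gcongr
        have h4 : 0 ≤ C * r ^ σ := by positivity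
        linarith
    refine hfin.trans ?_
    calc 2 * C * r ^ σ ≤ 2 * C * r ^ (E - ε / 2) := by
          gcongr 2 * C * ?_
          exact Real.rpow_le_rpow_of_exponent_ge hr0 hr1.le hσE
      _ = (2 * C * r ^ (ε / 2)) * r ^ (E - ε) := by
          rw [mul_assoc (2 * C), ← Real.rpow_add hr0]
          congr 2
          ring
      _ ≤ 1 * r ^ (E - ε) := by gcongr
      _ = _ := one_mul _
  -- the lower bounds
  have hlow : ∀ ε : ℝ, 0 < ε → ∀ᶠ r : ℝ in 𝓝[>] 0, ∃ (c' : ℂ) (η : ℝ), 0 < η ∧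
      r ^ (E + ε) ≤ η ∧ ball c' η ⊆ HH d ∩ ball c₀ r := by
    intro ε hε
    obtain ⟨r₀, hr₀, -, H⟩ := lower hSCH hATT hTWO hLYA Pool.Agent.Y434.CA.pa hd h hε
    have h1 : ∀ᶠ r : ℝ in 𝓝[>] 0, r < r₀ := mem_nhdsWithin_of_mem_nhds (gt_mem_nhds hr₀)
    filter_upwards [hmem0, h1] with r hr0 hr1
    obtain ⟨c', η, h2, h3, h4, h5⟩ := H r hr0 hr1.le
    exact ⟨c', η, h2, h3, fun c hc' => ⟨h5 c hc', h4 hc'⟩⟩
  have hlowH : ∀ ε : ℝ, 0 < ε → ∀ᶠ r : ℝ in 𝓝[>] 0,
      r ^ (2 * E + ε) ≤ (volume (HH d ∩ ball c₀ r)).toReal := by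
    intro ε hε
    filter_upwards [hlow (ε / 2) (by positivity), hmem0] with r ⟨c', η, h2, h3, h4⟩ hr0
    have h5 := ENNReal.toReal_mono (hMfin (HH d) r) (measure_mono h4)
    rw [vol_b' _ h2.le, ENNReal.toReal_ofReal (by positivity)] at h5
    refine le_trans ?_ h5
    calc r ^ (2 * E + ε) = (r ^ (E + ε / 2)) ^ 2 := by
          rw [← Real.rpow_natCast, ← Real.rpow_mul hr0.le]
          congr 1
          push_cast
          ring
      _ ≤ η ^ 2 := by gcongr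
      _ ≤ Real.pi * η ^ 2 := by
          have := Real.pi_gt_three
          nlinarith [sq_nonneg η]
  have hlowI : ∀ ε : ℝ, 0 < ε → ∀ᶠ r : ℝ in 𝓝[>] 0,
      r ^ (E + ε) ≤ inradius (HH d ∩ ball c₀ r) := by
    intro ε hε
    filter_upwards [hlow ε hε] with r ⟨c', η, h2, h3, h4⟩
    exact h3.trans (le_inradius (c₀ := c₀) (R := r) inter_subset_right h2.le h4)
  have hmono : ∀ r, inradius (HH d ∩ ball c₀ r) ≤
      inradius (N62a1eb23.multibrotSet d ∩ ball c₀ r) := by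
    intro r
    apply csSup_le_csSup (inradius_bdd (c₀ := c₀) (R := r) inter_subset_right)
    · exact ⟨0, le_rfl, 0, by simp⟩
    · rintro x ⟨hx0, c, hx⟩
      exact ⟨hx0, c, hx.trans (inter_subset_inter_left _ hHM)⟩
  have hmonoV : ∀ r, (volume (HH d ∩ ball c₀ r)).toReal ≤
      (volume (N62a1eb23.multibrotSet d ∩ ball c₀ r)).toReal := fun r =>
    ENNReal.toReal_mono (hMfin _ r) (measure_mono (inter_subset_inter_left _ hHM))
  refine ⟨?_, ?_, ?_, ?_, ?_⟩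
  · rw [hE2]
    exact lim_of (fun ε hε => (hlowH ε hε).mono fun r hr => hr.trans (hmonoV r)) hup
  · rw [hE2]
    exact lim_of hlowH fun ε hε => (hup ε hε).mono fun r hr => (hmonoV r).trans hr
  · exact lim_of (fun ε hε => (hlowI ε hε).mono fun r hr => hr.trans (hmono r)) hup2
  · exact lim_of hlowI fun ε hε => (hup2 ε hε).mono fun r hr => (hmono r).trans hr
  · intro σ hσ0 hσ
    obtain ⟨t, ht⟩ : ∃ t : ℝ, t = σ * (d - 1) / d := ⟨_, rfl⟩
    have ht0 : 0 ≤ t := by rw [ht]; positivity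
    have ht1 : t < 1 := by
      rw [lt_div_iff₀ hd1] at hσ
      rw [ht, div_lt_one (by positivity)]
      exact hσ
    set b : ℝ := (1 - t) / 2 with hb
    have hb0 : 0 < b := by rw [hb]; linarith
    have hb1 : t * (1 + b) < 1 := by
      rw [hb]
      nlinarith
    have e2 : d * t / ((d : ℝ) - 1) = σ := by
      rw [ht]
      field_simp
    obtain ⟨C₂, hC₂, hrec⟩ := rec_of_lya hLYA hd h hb0
    obtain ⟨C, hC, H⟩ := upper hd C₁ lam hC₂ hb0.le ht0 hb1
    rw [e2] at H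
    refine ⟨C, hC, fun c hcM hcc => ?_⟩
    obtain ⟨-, h2, h3, -⟩ := H c₀ hc hrec c hcM hcc
    exact ⟨h2, h3⟩

end Pool.Agent.Y298.CA
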