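import Mathlib
import Pool.Agent.Y298.CA.Stm2
import Pool.Agent.Y272.TY.All

/-!
# Typical parameters have the Lyapunov exponent `log d`
-/

set_option autoImplicit false

open Set Filter Metric MeasureTheory Topology

namespace Pool.Agent.Y298.CA

open Pool.Agent.TH279.MD Pool.Agent.H713R2 Pool.Agent.Y272.TY
open Pool.Agent.H712R2 (P)

theorem lyap_of_typ {d : ℕ} (hd : 2 ≤ d) {β : ℂ → ℂ} (hβ : IsBeta d β) {θ : ℝ} {c₀ : ℂ} {A : ℝ}
    {R : ℂ} (h : Typ d β θ c₀ A R) : Lyap d (Real.log d) c₀ := by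
  have hdR : (2 : ℝ) ≤ d := by exact_mod_cast hd
  refine ⟨Real.log_pos (by linarith), h.mem hd hβ, ?_⟩
  obtain ⟨A', hA', hs⟩ := h.sumg hd
  have hA0 : 0 ≤ A' := h.A0.trans hA'
  have h1 : ∀ n : ℕ, Real.log ‖deriv ((f d c₀)^[n]) c₀‖ = n * Real.log d +
      ((d : ℝ) - 1) * ∑ j ∈ Finset.range n, Real.log ‖P d (j + 1) c₀‖ := by
    intro n
    rw [← log_MM hd c₀ n fun j _ => h.P_ne j, ← (deriv_iter hd c₀ n).deriv]
    rfl
  have h2 : Tendsto (fun n : ℕ => Real.log ‖deriv ((f d c₀)^[n]) c₀‖ / n - Real.log d) atTop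
      (𝓝 0) := by
    have h3 : Tendsto (fun n : ℕ => ((d : ℝ) - 1) * A' * (gg n / n)) atTop
        (𝓝 (((d : ℝ) - 1) * A' * 0)) := gg_lim.const_mul _
    rw [mul_zero] at h3
    apply squeeze_zero_norm' _ h3
    filter_upwards [eventually_gt_atTop 0] with n hn
    have hn0 : (0 : ℝ) < n := by exact_mod_cast hn
    have h4 : Real.log ‖deriv ((f d c₀)^[n]) c₀‖ / n - Real.log d =
        ((d : ℝ) - 1) * (∑ j ∈ Finset.range n, Real.log ‖P d (j + 1) c₀‖) / n := by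
      rw [h1 n]
      field_simp
      ring
    rw [h4, Real.norm_eq_abs, abs_div, abs_mul, abs_of_pos hn0,
      abs_of_nonneg (by linarith : (0 : ℝ) ≤ (d : ℝ) - 1)]
    have h5 := hs n
    have h6 : 0 ≤ (d : ℝ) - 1 := by linarith
    calc ((d : ℝ) - 1) * |∑ j ∈ Finset.range n, Real.log ‖P d (j + 1) c₀‖| / n
        ≤ ((d : ℝ) - 1) * (A' * gg n) / n := by gcongr
      _ = _ := by ring
  have h3 := h2.add_const (Real.log d)
  simpa using h3

end Pool.Agent.Y298.CA
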