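import Mathlib
import Pool.Agent.Y298.CA.Sca
import Pool.Agent.Y298.CA.Typ
import Pool.Agent.Y674.CA.Lya
import Pool.Agent.Y100.CA.Two
import Pool.Agent.Y287.CA.Sch
import Pool.Agent.Y287.CA.Att

/-!
# The exact scaling: all hypotheses discharged
-/

set_option autoImplicit false

namespace Pool.Agent.Y298.CA

theorem scal_all {d : ℕ} (hd : 2 ≤ d) {χ : ℝ} {c₀ : ℂ} (h : Lyap d χ c₀) : Scal d c₀ :=
  scaling Pool.Agent.Y287.CA.sch Pool.Agent.Y287.CA.att Pool.Agent.Y100.CA.two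
    Pool.Agent.Y674.CA.lya hd h

end Pool.Agent.Y298.CA
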