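import Mathlib
import Pool.Agent.Y298.CA.All

/-!
# The area near Collet-Eckmann parameters: the two forms
-/

set_option autoImplicit false

open Set Filter Metric MeasureTheory

namespace Pool.Agent.Y298.CA

open Pool.Agent.TH279.MD Pool.Agent.Y298.SH Pool.Agent.Y298.SH.CD

theorem area_CE {d : ℕ} (hd : 2 ≤ d) :
    (∀ C₁ lam E : ℝ, 1 ≤ C₁ → 1 < lam → 0 ≤ E →
      E * (1 - Real.log lam / (d * Real.log (2 * d))) < 2 →
      ∃ C : ℝ, 0 < C ∧ ∀ c₀ : ℂ, c₀ ∈ N62a1eb23.multibrotSet d →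
        (∀ n : ℕ, lam ^ n ≤ C₁ * ‖deriv ((f d c₀)^[n]) c₀‖) → ∀ r : ℝ, 0 < r →
        volume (N62a1eb23.multibrotSet d ∩ ball c₀ r) ≤ ENNReal.ofReal (C * r ^ E)) ∧
    (∀ C₁ lam C₂ β E : ℝ, 1 ≤ C₁ → 1 < lam → 0 ≤ β → 0 ≤ E → E * (1 + β) < 2 * d / (d - 1) →
      ∃ C : ℝ, 0 < C ∧ ∀ c₀ : ℂ, c₀ ∈ N62a1eb23.multibrotSet d →
        (∀ n : ℕ, lam ^ n ≤ C₁ * ‖deriv ((f d c₀)^[n]) c₀‖) →
        (∀ n : ℕ, 1 ≤ C₂ * (‖(f d c₀)^[n] c₀‖ * ‖deriv ((f d c₀)^[n]) c₀‖ ^ β)) →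
        ∀ r : ℝ, 0 < r →
          volume (N62a1eb23.multibrotSet d ∩ ball c₀ r) ≤ ENNReal.ofReal (C * r ^ E)) := by
  have hdR : (2 : ℝ) ≤ d := by exact_mod_cast hd
  have hd1 : 0 < (d : ℝ) - 1 := by linarith
  have hgen : ∀ C₁ lam C₂ β E : ℝ, 1 ≤ C₁ → 1 < lam → 0 ≤ β → 0 ≤ E →
      E * (1 + β) < 2 * d / (d - 1) →
      ∃ C : ℝ, 0 < C ∧ ∀ c₀ : ℂ, c₀ ∈ N62a1eb23.multibrotSet d →
        (∀ n : ℕ, lam ^ n ≤ C₁ * ‖deriv ((f d c₀)^[n]) c₀‖) →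
        (∀ n : ℕ, 1 ≤ C₂ * (‖(f d c₀)^[n] c₀‖ * ‖deriv ((f d c₀)^[n]) c₀‖ ^ β)) →
        ∀ r : ℝ, 0 < r →
          volume (N62a1eb23.multibrotSet d ∩ ball c₀ r) ≤ ENNReal.ofReal (C * r ^ E) := by
    intro C₁ lam C₂ β E hC₁ hlam hβ hE0 hE
    by_cases hC₂ : 0 < C₂
    · set t : ℝ := E * (d - 1) / (2 * d) with ht
      have ht0 : 0 ≤ t := by positivity
      have ht1 : t * (1 + β) < 1 := by
        rw [lt_div_iff₀ hd1] at hE
        rw [ht, div_mul_eq_mul_div, div_lt_one (by positivity)]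
        linarith
      have e1 : t * (2 * (d : ℝ) / ((d : ℝ) - 1)) = E := by
        rw [ht]
        field_simp
      obtain ⟨C, hC, H⟩ := area_final hd C₁ lam hC₂ hβ ht0 ht1
      rw [e1] at H
      refine ⟨C, hC, fun c₀ h1 h2 hrec r hr => ?_⟩
      exact (measure_mono (inter_subset_inter_right _ ball_subset_closedBall)).trans
        (H c₀ (cep_of_mem hd hC₁ hlam h1 h2) hrec r hr)
    · refine ⟨1, one_pos, fun c₀ _ _ hrec r _ => ?_⟩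
      exfalso
      have h1 := hrec 0
      have h2 : 0 ≤ ‖(f d c₀)^[0] c₀‖ * ‖deriv ((f d c₀)^[0]) c₀‖ ^ β := by positivity
      nlinarith [not_lt.mp hC₂]
  refine ⟨?_, hgen⟩
  intro C₁ lam E hC₁ hlam hE0 hE
  have hl4 : 0 < Real.log (2 * d) := Real.log_pos (by linarith)
  by_cases h4 : lam ≤ 2 * d
  · have h5 : Real.log lam ≤ Real.log (2 * d) := Real.log_le_log (by linarith) h4
    have h6 : 0 ≤ 1 - Real.log lam / Real.log (2 * d) := by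
      rw [sub_nonneg, div_le_one hl4]
      exact h5
    obtain ⟨C, hC, H⟩ := hgen C₁ lam ((d * C₁) ^ (((d : ℝ) - 1)⁻¹))
      ((1 - Real.log lam / Real.log (2 * d)) / ((d : ℝ) - 1)) E hC₁ hlam (by positivity) hE0 (by
      have h7 : 1 + (1 - Real.log lam / Real.log (2 * d)) / ((d : ℝ) - 1) =
          (1 - Real.log lam / (d * Real.log (2 * d))) * (d / (d - 1)) := by
        field_simp
        ring
      rw [h7, ← mul_assoc]
      have h8 : 0 < (d : ℝ) / (d - 1) := by positivity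
      calc E * (1 - Real.log lam / (d * Real.log (2 * d))) * (d / (d - 1)) <
            2 * ((d : ℝ) / (d - 1)) := by gcongr
        _ = _ := by ring)
    refine ⟨C, hC, fun c₀ h1 h2 r hr => H c₀ h1 h2 ?_ r hr⟩
    exact (cep_of_mem hd hC₁ hlam h1 h2).recB
  · refine ⟨1, one_pos, fun c₀ h1 h2 r _ => ?_⟩
    exact absurd (cep_of_mem hd hC₁ hlam h1 h2).lam_le h4

end Pool.Agent.Y298.CA
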